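import Pool.Agent.Work.MP_1d0aa8_co.Defs

/-!
# MP_1d0aa8_co: statements of the items (see BLUEPRINT.md for the proofs)
-/

set_option autoImplicit false

namespace Pool.Agent.Work.MP_1d0aa8_co

open Finset
open scoped Classical

/-! ## General counting -/

/-- DIV -/
def SDiv : Prop := ∀ N : ℕ, 1 ≤ N →
  ((((Icc 1 N) ×ˢ ((Icc 1 N) ×ˢ (Icc 1 N))).filter
    (fun t : ℕ × ℕ × ℕ => t.2.1 ∣ t.1 ∧ t.2.2 ∣ t.1)).card : ℝ) ≤ N * lg N ^ 3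

/-- BAD: few non-AP members through `x` have a bad element. -/
def SBad : Prop := ∀ (N : ℕ) (F : Finset (Finset ℤ)) (x : ℤ), 1 ≤ N → Fam N F → x ∈ Icc 1 (N : ℤ) →
  (((NA F x).filter (fun A => ∃ y ∈ A, y ≠ x ∧ BadAt A x y)).card : ℝ) ≤ 6 * N * lg N ^ 3

/-- MEET -/
def SMeet : Prop := ∀ (N : ℕ) (F : Finset (Finset ℤ)) (x : ℤ) (B : Finset ℤ),
  1 ≤ N → Fam N F → x ∈ Icc 1 (N : ℤ) → B ∈ F → x ∉ B →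
  ((NA F x).card : ℝ) + max (((N - 1 - B.card).choose 2 : ℕ) : ℝ) ((Cov N F x).card : ℝ)
    ≤ ((N - 1).choose 2 : ℕ) + 6 * N * lg N ^ 3

/-- NT -/
def SNT : Prop := ∀ (N : ℕ) (F : Finset (Finset ℤ)) (x : ℤ), 1 ≤ N → Fam N F → x ∈ Icc 1 (N : ℤ) →
  2 * ((NA F x).card : ℝ) + ((NTp N F x).card : ℝ)
    ≤ 2 * (((N - 1).choose 2 : ℕ) : ℝ) + 12 * N * lg N ^ 3

/-- LARGE -/
def SLarge : Prop := ∀ (N : ℕ) (F : Finset (Finset ℤ)) (s : ℝ), Fam N F → 4 ≤ s →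
  ((F.filter (fun A => ¬ APc A ∧ s ≤ (A.card : ℝ))).card : ℝ) * s ^ 2 ≤ 8 * (N : ℝ) ^ 3

/-- COUNT: AP members of difference `d` and size at least `n0`. -/
def SCount : Prop := ∀ (N : ℕ) (F G : Finset (Finset ℤ)) (d : ℕ) (n0 : ℝ), 1 ≤ N → Fam N F →
  1 ≤ d → d ≤ N → G ⊆ Pd F d → (∀ A ∈ G, n0 ≤ (A.card : ℝ)) → 0 ≤ n0 →
  (G.card : ℝ) ≤ (max ((N : ℝ) / d - n0) 0) ^ 2 / 2 - (max ((N : ℝ) / d / 2 - n0) 0) ^ 2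
    + 10 * ((N : ℝ) / d + 1)

/-- SPLIT -/
def SSplit : Prop := ∀ (N : ℕ) (F G : Finset (Finset ℤ)), Fam N F → G ⊆ F →
  (G.filter (fun A => APc A)).card ≤ 1 + ∑ d ∈ Icc 1 N, ((Pd F d).filter (fun A => A ∈ G)).card

/-- APTOT -/
def SAPtot : Prop := ∃ N0 : ℕ, ∀ N : ℕ, N0 ≤ N → ∀ F : Finset (Finset ℤ), Fam N F →
  ((F.filter (fun A => APc A)).card : ℝ) ≤ 0.412 * (N : ℝ) ^ 2

/-- ZETA -/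
def SZeta : Prop := ∀ N : ℕ, ∑ d ∈ Icc 1 N, (1 : ℝ) / (d : ℝ) ^ 2 ≤ 1.645

/-- QSMALL: few AP members through a point near the end. -/
def SQsmall : Prop := ∀ (N : ℕ) (F : Finset (Finset ℤ)) (x : ℤ), 1 ≤ N → Fam N F →
  x ∈ Icc 1 (N : ℤ) →
  ((∑ d ∈ Icc 1 N, (Qd F x d).card : ℕ) : ℝ) ≤ 2 * ((x : ℝ) - 1) * N + 4 * N * lg N

/-- PDCARD -/
def SPdCard : Prop := ∀ (N : ℕ) (F : Finset (Finset ℤ)) (d : ℕ) (A : Finset ℤ), Fam N F → 1 ≤ d →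
  A ∈ Pd F d → d * (A.card - 1) + 1 ≤ N

/-! ## Coprime pairs -/

/-- COP -/
def SCop : Prop := ∀ (n : ℕ) (D : Finset (ℕ × ℕ)),
  (∀ p ∈ D, 1 ≤ p.1 ∧ p.1 ≤ n ∧ 1 ≤ p.2 ∧ p.2 ≤ n) →
  (∀ p ∈ D, ∀ i j : ℕ, 1 ≤ i → i ≤ p.1 → 1 ≤ j → j ≤ p.2 → (i, j) ∈ D) →
  0.587 * (D.card : ℝ) - 10 * n ≤ ((D.filter (fun p => Nat.Coprime p.1 p.2)).card : ℝ)

/-- BOX -/
def SBox : Prop := ∀ (B : Finset (ℕ × ℕ)) (l0 r0 a0 : ℕ),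
  (∀ q ∈ B, q.1 ≤ l0 ∧ a0 ≤ q.2 ∧ q.2 ≤ r0) →
  1.174 * ((l0 : ℝ) + a0) * (B.card : ℝ)
    ≤ (l0 : ℝ) * ((BoxCov (l0 + r0) B).card : ℝ) + 1000 * ((l0 : ℝ) + r0 + 1) ^ 2

/-- COVER -/
def SCover : Prop := ∀ (N : ℕ) (F : Finset (Finset ℤ)) (x : ℤ) (a d : ℕ),
  1 ≤ N → Fam N F → x ∈ Icc 1 (N : ℤ) → 1 ≤ d → d ≤ N → x + a ≤ N →
  (∀ A ∈ F, x ∈ A → APc A → ∃ y ∈ A, x + a ≤ y) →
  1.174 * (((x : ℝ) - 1) + a) * ((Qd F x d).card : ℝ)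
    ≤ ((x : ℝ) - 1) * ((CovS N F x d).card : ℝ) + 5000 * (N : ℝ) ^ 2 / d

/-- COVER at scale 2 by intervals. -/
def SCover2 : Prop := ∀ (N : ℕ) (F : Finset (Finset ℤ)) (x : ℤ) (a : ℕ),
  2 ≤ N → Fam N F → x ∈ Icc 1 (N : ℤ) → x + a ≤ N →
  (∀ A ∈ F, x ∈ A → APc A → ∃ y ∈ A, x + a ≤ y) →
  1.174 * (((x : ℝ) - 1) + a) * ((Qd F x 1).card : ℝ) / 4
    ≤ ((x : ℝ) - 1) * ((CovS N F x 2).card : ℝ) + 5000 * (N : ℝ) ^ 2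

/-- PHI -/
def SPhi : Prop := ∀ n : ℕ, 0.27 * (n : ℝ) ^ 2 - n / 2 ≤ (Phi n : ℝ)

/-- PSI -/
def SPsi : Prop := ∀ (X : Finset (ℕ × ℕ)) (m n : ℕ),
  (∀ p ∈ X, p.1 ≤ m ∧ p.2 ≤ n ∧ 2 ≤ Nat.gcd p.1 p.2 ∧ p ≠ (2, 2)) → X.card ≤ Phi m + Phi n

/-! ## Intervals avoiding `x`, area bounds -/

/-- The five area bounds, with error `E`. -/
def AreaBd (a b T δ E : ℝ) : Prop :=
  δ ≤ T ^ 2 / 2 + E ∧ δ ≤ a * b + E ∧ (a ≤ T → δ ≤ a * T - a ^ 2 / 2 + E) ∧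
    (b ≤ T → δ ≤ b * T - b ^ 2 / 2 + E) ∧
    (a ≤ T → b ≤ T → T ≤ a + b → δ ≤ a * b - (a + b - T) ^ 2 / 2 + E)

/-- AREA -/
def SArea : Prop := ∀ (D : Finset (ℕ × ℕ)) (a b T : ℕ),
  (∀ p ∈ D, p.1 ≤ a ∧ p.2 ≤ b ∧ p.1 + p.2 ≤ T) →
  AreaBd a b T D.card (3 * ((a : ℝ) + b + T + 1))

/-- DELTA: the number of intervals avoiding `x` (all to the right of `x`). -/
def SDelta : Prop := ∀ (N : ℕ) (F : Finset (Finset ℤ)) (x : ℤ) (a b T : ℕ),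
  Fam N F → x ∈ Icc 1 (N : ℤ) → (∀ A ∈ Sd F x 1, ∀ y ∈ A, x < y) →
  (∀ A ∈ Sd F x 1, ∃ y ∈ A, y ≤ x + a) → (∀ A ∈ Sd F x 1, ∃ y ∈ A, (N : ℤ) - b ≤ y) →
  (∀ A ∈ Sd F x 1, (N : ℤ) - x + 1 ≤ (A.card : ℤ) + T) →
  AreaBd a b T (Sd F x 1).card (3 * ((a : ℝ) + b + T + 1))

/-- NTC: the number of pairs missing an interval. -/
def SNTc : Prop := ∀ (N : ℕ) (F : Finset (Finset ℤ)) (x : ℤ) (a b : ℕ),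
  Fam N F → x ∈ Icc 1 (N : ℤ) → (∀ A ∈ Sd F x 1, ∀ y ∈ A, x < y) →
  (∃ A ∈ Sd F x 1, ∀ y ∈ A, x + a ≤ y) → (∃ A ∈ Sd F x 1, ∀ y ∈ A, y ≤ (N : ℤ) - b) →
  ((a : ℝ) ^ 2 + (b : ℝ) ^ 2) / 2 + ((Sd F x 1).card : ℝ) ≤ ((NTp N F x).card : ℝ) + 10 * N

/-- All intervals avoiding `x` are on one side. -/
def SSide : Prop := ∀ (N : ℕ) (F : Finset (Finset ℤ)) (x : ℤ), Fam N F →
  (∀ A ∈ Sd F x 1, ∀ y ∈ A, x < y) ∨ (∀ A ∈ Sd F x 1, ∀ y ∈ A, y < x)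

/-- REFL: reflection. -/
def SRefl : Prop := ∀ (N : ℕ) (F : Finset (Finset ℤ)), Fam N F →
  Fam N (refl N F) ∧ (refl N F).card = F.card ∧
  (∀ A ∈ refl N F, A.image (fun y => (N : ℤ) + 1 - y) ∈ F) ∧
  (∀ (x : ℤ) (A : Finset ℤ), A ∈ Sd (refl N F) x 1 →
    A.image (fun y => (N : ℤ) + 1 - y) ∈ Sd F ((N : ℤ) + 1 - x) 1)

/-! ## Numerical inequalities of the middle regime -/

/-- NUM0 -/
def SNum0 : Prop := ∀ κ : ℝ, 0.076 ≤ κ → κ ≤ 0.77 →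
  0.0003 ≤ 0.148 * κ ^ 2 / 2 - (max (2 * κ - 1) 0) ^ 2 / 8 - (max (3 * κ - 2) 0) ^ 2 / 18
    - (max (4 * κ - 3) 0) ^ 2 / 32

/-- NUM1: `κ ≤ 1/2`. -/
def SNum1 : Prop := ∀ κ L a δ : ℝ, 0 ≤ κ → κ ≤ 1 / 2 → 0 ≤ L → L ≤ κ → 0 ≤ a → 0 < L + a →
  L + a ≤ 1 → AreaBd a (1 - L - a) (κ - L) δ 0 →
  0.07 * κ ^ 2 * L * (L + a) ≤ (κ ^ 2 / 2 - δ) * (L + a) - 0.426 * κ ^ 2 * L

/-- NUM2: `1/2 ≤ κ ≤ 0.77`. -/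
def SNum2 : Prop := ∀ κ L a δ : ℝ, 1 / 2 ≤ κ → κ ≤ 0.77 → 0 ≤ L → L ≤ κ → 0 ≤ a → 0 < L + a →
  L + a ≤ 1 → AreaBd a (1 - L - a) (κ - L) δ 0 →
  0.002 * L * (L + a) ≤ (κ ^ 2 / 2 - δ - (max (2 * κ - 1) 0) ^ 2 / 8 - (max (3 * κ - 2) 0) ^ 2 / 18
    - (max (4 * κ - 3) 0) ^ 2 / 32) * (L + a) - 0.426 * κ ^ 2 * L

/-- NUM2b: `0.65 ≤ κ ≤ 0.77`, all `L`. -/
def SNum2b : Prop := ∀ κ L a δ : ℝ, 0.65 ≤ κ → κ ≤ 0.77 → 0 ≤ L → L ≤ κ → 0 ≤ a → 0 < L + a →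
  L + a ≤ 1 → AreaBd a (1 - L - a) (κ - L) δ 0 →
  0.0015 * (L + a) ≤ (κ ^ 2 / 2 - δ - (max (2 * κ - 1) 0) ^ 2 / 8 - (max (3 * κ - 2) 0) ^ 2 / 18
    - (max (4 * κ - 3) 0) ^ 2 / 32) * (L + a) - 0.426 * κ ^ 2 * L

/-- The contribution of the differences `3..10`. -/
noncomputable def h3 (κ : ℝ) : ℝ := ∑ d ∈ Icc (3 : ℕ) 10, gg (1 - (d : ℝ) * (1 - κ)) / (d : ℝ) ^ 2

/-- NUM3: `0.77 ≤ κ ≤ 0.908`. -/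
def SNum3 : Prop := ∀ κ L a δ : ℝ, 0.77 ≤ κ → κ ≤ 0.908 → 0 ≤ L → L ≤ κ → 0 ≤ a → 0 < L + a →
  L + a ≤ 1 → AreaBd a (1 - L - a) (κ - L) δ 0 →
  0.426 * κ ^ 2 * L ≤ (κ ^ 2 / 2 - δ - 1 / 16 - h3 κ - 0.001) * (L + a) ∨
  0.8 * 0.426 * κ ^ 2 * L ≤ (κ ^ 2 / 2 - δ - 1 / 16 - h3 κ - 0.0198 - 0.001) * (L + a)

/-- NUM3b: the case without intervals avoiding `x`. -/
def SNum3b : Prop := ∀ κ : ℝ, 0.77 ≤ κ → κ ≤ 0.908 →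
  0.8 * 0.426 * κ ^ 2 ≤ κ ^ 2 / 2 - 1 / 16 - h3 κ - 0.0198 - 0.001

/-- NUM4: `x` near an end. -/
def SNum4 : Prop := ∀ κ a b δ : ℝ, 0.076 ≤ κ → κ ≤ 0.65 → 0 ≤ a → 0 ≤ b → AreaBd a b κ δ 0 →
  0.0003 ≤ κ ^ 2 / 2 - δ - (max (2 * κ - 1) 0) ^ 2 / 8 ∨
  0.0003 ≤ (a ^ 2 + b ^ 2) / 4 - δ / 2 - (max (2 * κ - 1) 0) ^ 2 / 8

/-! ## Middle regime -/

/-- T2, all intervals avoiding `x` to the right of `x`. -/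
def ST2R : Prop := ∃ C : ℝ, 20 ≤ C ∧ ∃ N0 : ℕ, ∀ N : ℕ, N0 ≤ N → ∀ (F : Finset (Finset ℤ)) (x : ℤ),
  Fam N F → x ∈ Icc 1 (N : ℤ) → (∀ A ∈ Sd F x 1, ∀ y ∈ A, x < y) →
  (∀ B ∈ F, x ∉ B → C * Real.sqrt N < (B.card : ℝ)) →
  (∃ B ∈ F, x ∉ B ∧ 13 * B.card + 13 ≤ 12 * N) → F.card ≤ bnd N

/-- T2. -/
def ST2 : Prop := ∃ C : ℝ, 20 ≤ C ∧ ∃ N0 : ℕ, ∀ N : ℕ, N0 ≤ N → ∀ (F : Finset (Finset ℤ)) (x : ℤ),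
  Fam N F → x ∈ Icc 1 (N : ℤ) →
  (∀ B ∈ F, x ∉ B → C * Real.sqrt N < (B.card : ℝ)) →
  (∃ B ∈ F, x ∉ B ∧ 13 * B.card + 13 ≤ 12 * N) → F.card ≤ bnd N

/-! ## Case S: there is a centre -/

/-- EXC -/
def SExcCount : Prop := ∀ (N : ℕ) (F : Finset (Finset ℤ)) (x y : ℤ) (θ : ℕ), Fam N F → x ≠ y →
  (F.filter (fun A => x ∈ A ∧ y ∈ A ∧ θ ≤ (Exc A x y).card)).card * θ ≤ N

/-- TYPEAB -/
def STypeAB : Prop := ∀ (N : ℕ) (F : Finset (Finset ℤ)) (x : ℤ) (θ : ℕ), 1 ≤ N → Fam N F →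
  x ∈ Icc 1 (N : ℤ) →
  ((F.filter (fun A => x ∈ A ∧ ¬ APc A ∧ ¬ Quasi θ A ∧
    ∃ y ∈ A, y ≠ x ∧ (Exc A x y).card < θ)).card : ℝ) ≤ 6 * N * lg N ^ 3

/-- QUASI -/
def SQuasi : Prop := ∀ (η C : ℝ) (θ : ℕ), 0 < η → 0 < C → 1 ≤ θ → ∃ (K : ℝ) (N0 : ℕ), ∀ N : ℕ,
  N0 ≤ N → ∀ F : Finset (Finset ℤ), Fam N F →
  ((F.filter (fun A => Quasi θ A ∧ η * Real.sqrt N ≤ (A.card : ℝ) ∧
    (A.card : ℝ) ≤ C * Real.sqrt N)).card : ℝ) ≤ K * N * Real.sqrt N * lg N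

/-- CASES -/
def SCaseS : Prop := ∀ C : ℝ, 20 ≤ C → ∃ N0 : ℕ, ∀ N : ℕ, N0 ≤ N → ∀ F : Finset (Finset ℤ),
  Fam N F → 0.49 * (N : ℝ) ^ 2 ≤ (F.card : ℝ) →
  ∃ x ∈ Icc 1 (N : ℤ), ∀ B ∈ F, x ∉ B → C * Real.sqrt N < (B.card : ℝ)

/-! ## Exact part: star theorem and near-star regime -/

/-- SLOT -/
def SSlot : Prop := ∀ (N : ℕ) (F : Finset (Finset ℤ)) (x : ℤ) (P : Finset (ℤ × ℤ)),
  Fam N F → x ∈ Icc 1 (N : ℤ) → P ⊆ Prs N x → (∀ p ∈ P, x < p.1) →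
  (∀ A ∈ NA F x, ∃ u ∈ A, ∃ v ∈ A, u < v ∧ u ≠ x ∧ v ≠ x ∧ ¬ hull x u v ⊆ A ∧ (u, v) ∉ P) →
  (∀ d : ℕ, 1 ≤ d → (XS F x d).card ≤
    ((CovS N F x d).filter (fun p => (x < p.1 ∨ p.2 < x) ∧ p ∉ P)).card) →
  (F.filter (fun A => x ∈ A ∧ 3 ≤ A.card)).card + P.card ≤ (N - 1).choose 2 + (C5 F x).card

/-- C5CARD -/
def SC5 : Prop := ∀ (N : ℕ) (F : Finset (Finset ℤ)) (x : ℤ), Fam N F → x ∈ Icc 1 (N : ℤ) →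
  2 * (C5 F x).card ≤ (x - 1).toNat ∧ 2 * (C5 F x).card ≤ ((N : ℤ) - x).toNat

/-- SCALE0: slots of the one-sided and non-coprime AP members, nothing forbidden. -/
def SScale0 : Prop := ∀ (N : ℕ) (F : Finset (Finset ℤ)) (x : ℤ) (d : ℕ), Fam N F →
  x ∈ Icc 1 (N : ℤ) → 1 ≤ d →
  (XS F x d).card ≤ ((CovS N F x d).filter (fun p => x < p.1 ∨ p.2 < x)).card

/-- STAR: the members through `x`. -/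
def SStar : Prop := ∀ (N : ℕ) (F : Finset (Finset ℤ)) (x : ℤ), 1 ≤ N → Fam N F →
  x ∈ Icc 1 (N : ℤ) →
  (F.filter (fun A => x ∈ A)).card ≤ N.choose 2 + (if {x} ∈ F then 1 else 0) + (C5 F x).card

/-- The near-star situation with an interval avoiding `x`, on the right of `x`. `a`, `b` are the
largest gaps between `x` and an interval, and between an interval and `N`. -/
structure Near (N : ℕ) (F : Finset (Finset ℤ)) (x : ℤ) (k a b : ℕ) : Prop where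
  fam : Fam N F
  hx : x ∈ Icc 1 (N : ℤ)
  hk : 13 * k + 1 ≤ N
  big : ∀ B ∈ F, x ∉ B → N ≤ B.card + 1 + k
  right : ∀ A ∈ Sd F x 1, ∀ y ∈ A, x < y
  ha : ∀ A ∈ Sd F x 1, x + a + 1 ∈ A
  hb : ∀ A ∈ Sd F x 1, (N : ℤ) - b ∈ A
  ha' : ∃ A ∈ Sd F x 1, ∀ y ∈ A, x + a + 1 ≤ y
  hb' : ∃ A ∈ Sd F x 1, ∀ y ∈ A, y ≤ (N : ℤ) - b

/-- NEARAB -/
def SNearAB : Prop := ∀ (N : ℕ) (F : Finset (Finset ℤ)) (x : ℤ) (k a b : ℕ), Near N F x k a b →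
  x - 1 + a ≤ k ∧ x - 1 + b ≤ k ∧ x + a + 1 ≤ (N : ℤ) - b

/-- NEARCOUNT -/
def SNearCount : Prop := ∀ (N : ℕ) (F : Finset (Finset ℤ)) (x : ℤ) (k a b : ℕ), Near N F x k a b →
  (Sd F x 1).card ≤ 1 + a + b + (Forb N F x).card

/-- NEARSMALL: members with at most two elements through `x`. -/
def SNearSmall : Prop := ∀ (N : ℕ) (F : Finset (Finset ℤ)) (x : ℤ) (k a b : ℕ), Near N F x k a b →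
  (F.filter (fun A => x ∈ A ∧ A.card ≤ 2)).card + a + b + 1 ≤ N

/-- MARGINA: all core points of `A` bad, the largest one far from `x`: then `A` is an AP. -/
def SMarginA : Prop := ∀ (N k a b : ℕ) (x z : ℤ) (A : Finset ℤ), 1 ≤ x → 13 * k + 1 ≤ N →
  x - 1 + a ≤ k → x - 1 + b ≤ k → A ⊆ Icc 1 (N : ℤ) → x ∈ A → z ∈ A → x + a + 1 ≤ z →
  z ≤ (N : ℤ) - b → (∀ y ∈ A, x + a + 1 ≤ y → y ≤ (N : ℤ) - b → BadAt A x y ∧ y ≤ z) →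
  x + 6 * k ≤ z → APc A

/-- MARGINB: all core points bad, the largest one near `x`: no point in the right margin. -/
def SMarginB : Prop := ∀ (N k a b : ℕ) (x z : ℤ) (A : Finset ℤ), 1 ≤ x → 13 * k + 1 ≤ N →
  x - 1 + a ≤ k → x - 1 + b ≤ k → A ⊆ Icc 1 (N : ℤ) → x ∈ A → z ∈ A → x + a + 1 ≤ z →
  z ≤ (N : ℤ) - b → (∀ y ∈ A, x + a + 1 ≤ y → y ≤ (N : ℤ) - b → BadAt A x y ∧ y ≤ z) →
  z < x + 6 * k → ∀ y ∈ A, y ≤ (N : ℤ) - b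

/-- MARGIN -/
def SMargin : Prop := ∀ (N : ℕ) (F : Finset (Finset ℤ)) (x : ℤ) (k a b : ℕ), Near N F x k a b →
  ∀ A ∈ NA F x, ∃ u ∈ A, ∃ v ∈ A, u < v ∧ u ≠ x ∧ v ≠ x ∧ ¬ hull x u v ⊆ A ∧ (u, v) ∉ Forb N F x

/-- SCALE: slots of the one-sided and non-coprime AP members, avoiding the forbidden pairs. -/
def SScale : Prop := ∀ (N : ℕ) (F : Finset (Finset ℤ)) (x : ℤ) (k a b d : ℕ), Near N F x k a b →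
  1 ≤ d → (XS F x d).card ≤
    ((CovS N F x d).filter (fun p => (x < p.1 ∨ p.2 < x) ∧ p ∉ Forb N F x)).card

/-- EXTRAS: non-interval members avoiding `x`. -/
def SExtras : Prop := ∀ (N : ℕ) (F : Finset (Finset ℤ)) (x : ℤ) (k : ℕ), Fam N F →
  x ∈ Icc 1 (N : ℤ) → 13 * k + 1 ≤ N → (∀ B ∈ F, x ∉ B → N ≤ B.card + 1 + k) → 2 ≤ (Av F x).card →
  (((Av F x).filter (fun A => A ∉ Sd F x 1)).card ≤ k + 1 ∧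
    (x ≤ 2 * k + 1 ∨ (N : ℤ) ≤ x + 2 * k))

/-- T1: the near-star regime. -/
def ST1 : Prop := ∃ N0 : ℕ, ∀ (N : ℕ), N0 ≤ N → ∀ (F : Finset (Finset ℤ)) (x : ℤ) (k : ℕ),
  Fam N F → x ∈ Icc 1 (N : ℤ) → 13 * k + 1 ≤ N → (∀ B ∈ F, x ∉ B → N ≤ B.card + 1 + k) →
  F.card ≤ bnd N

/-! ## Final statements -/

/-- UPPER -/
def SUpper : Prop := ∃ N0 : ℕ, ∀ (N : ℕ), N0 ≤ N → ∀ F : Finset (Finset ℤ), Fam N F →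
  F.card ≤ bnd N

/-- LOWER: a starred family with `bnd N` members, in the language of the problem. -/
def SLower : Prop := ∀ N : ℕ, 1 ≤ N → ∃ F : Finset (Finset ℕ),
  (F ⊆ (Finset.Icc 1 N).powerset ∧
    ∀ A ∈ F, ∀ B ∈ F, A ≠ B →
      ∃ a d k : ℕ, A ∩ B = (Finset.range (k + 1)).image (fun i => a + i * d)) ∧
  F.card = bnd N ∧ ∃ x : ℕ, ∀ A ∈ F, x ∈ A

/-- TRANSFER from the language of the problem. -/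
def STransfer : Prop := ∀ (N : ℕ) (G : Finset (Finset ℕ)),
  (G ⊆ (Finset.Icc 1 N).powerset ∧
    ∀ A ∈ G, ∀ B ∈ G, A ≠ B →
      ∃ a d k : ℕ, A ∩ B = (Finset.range (k + 1)).image (fun i => a + i * d)) →
  ∃ F : Finset (Finset ℤ), Fam N F ∧ F.card = G.card

/-- FINAL -/
def SFinal : Prop := ∃ N0 : ℕ, ∀ N : ℕ, N0 ≤ N →
  ∃ F : Finset (Finset ℕ),
    (F ⊆ (Finset.Icc 1 N).powerset ∧
      ∀ A ∈ F, ∀ B ∈ F, A ≠ B →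
        ∃ a d k : ℕ, A ∩ B = (Finset.range (k + 1)).image (fun i => a + i * d)) ∧
    (∀ G : Finset (Finset ℕ),
      (G ⊆ (Finset.Icc 1 N).powerset ∧
        ∀ A ∈ G, ∀ B ∈ G, A ≠ B →
          ∃ a d k : ℕ, A ∩ B = (Finset.range (k + 1)).image (fun i => a + i * d)) →
      G.card ≤ F.card) ∧
    (∃ x : ℕ, ∀ A ∈ F, x ∈ A) ∧ F.card = N.choose 2 + 1 + (N - 1) / 4

end Pool.Agent.Work.MP_1d0aa8_co
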