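import Mathlib

/-!
# MP_1d0aa8_co (Szabo: families of subsets of [N] with pairwise AP intersections): definitions

All sets live in `ℤ`; a family on `[N]` consists of subsets of `Icc 1 N`.
-/

set_option autoImplicit false

namespace Pool.Agent.Work.MP_1d0aa8_co

open Finset
open scoped Classical

/-- The smallest arithmetic progression containing `x`, `u`, `v`: all points between them which are
congruent to `x` modulo `gcd (u - x) (v - x)`. -/
noncomputable def hull (x u v : ℤ) : Finset ℤ :=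
  (Icc (min x (min u v)) (max x (max u v))).filter
    (fun y => ((Int.gcd (u - x) (v - x) : ℕ) : ℤ) ∣ y - x)

/-- Nonempty finite arithmetic progressions, described by closure under `hull`. -/
def APc (S : Finset ℤ) : Prop :=
  S.Nonempty ∧ ∀ x ∈ S, ∀ u ∈ S, ∀ v ∈ S, hull x u v ⊆ S

/-- The progression `a, a + d, …, a + k d`. -/
def apset (a : ℤ) (d k : ℕ) : Finset ℤ :=
  (range (k + 1)).image (fun i : ℕ => a + (i : ℤ) * (d : ℤ))

/-- A family of subsets of `[N]` with pairwise nonempty AP intersections. -/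
structure Fam (N : ℕ) (F : Finset (Finset ℤ)) : Prop where
  sub : ∀ A ∈ F, A ⊆ Icc 1 (N : ℤ)
  ap : ∀ A ∈ F, ∀ B ∈ F, A ≠ B → APc (A ∩ B)

/-- Members containing `x` which are not progressions. -/
noncomputable def NA (F : Finset (Finset ℤ)) (x : ℤ) : Finset (Finset ℤ) :=
  F.filter (fun A => x ∈ A ∧ ¬ APc A)

/-- Members containing `x` which are progressions. -/
noncomputable def QA (F : Finset (Finset ℤ)) (x : ℤ) : Finset (Finset ℤ) :=
  F.filter (fun A => x ∈ A ∧ APc A)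

/-- Members avoiding `x`. -/
noncomputable def Av (F : Finset (Finset ℤ)) (x : ℤ) : Finset (Finset ℤ) :=
  F.filter (fun A => x ∉ A)

/-- Members which are progressions of difference `d` with at least two elements. -/
noncomputable def Pd (F : Finset (Finset ℤ)) (d : ℕ) : Finset (Finset ℤ) :=
  F.filter (fun A => ∃ (a : ℤ) (k : ℕ), 1 ≤ k ∧ A = apset a d k)

/-- `y` is bad at `x` in `A`: all hulls of `x`, `y` and a third point of `A` are inside `A`. -/
def BadAt (A : Finset ℤ) (x y : ℤ) : Prop := ∀ w ∈ A, hull x y w ⊆ A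

/-- The exceptional points of `A` with respect to `x`, `y`. -/
noncomputable def Exc (A : Finset ℤ) (x y : ℤ) : Finset ℤ :=
  A.filter (fun w => ¬ hull x y w ⊆ A)

/-- All pairs `u < v` of points of `[N]` different from `x`. -/
noncomputable def Prs (N : ℕ) (x : ℤ) : Finset (ℤ × ℤ) :=
  ((Icc 1 (N : ℤ)) ×ˢ (Icc 1 (N : ℤ))).filter (fun p => p.1 < p.2 ∧ p.1 ≠ x ∧ p.2 ≠ x)

/-- The pairs covered by AP members through `x`. -/
noncomputable def Cov (N : ℕ) (F : Finset (Finset ℤ)) (x : ℤ) : Finset (ℤ × ℤ) :=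
  (Prs N x).filter (fun p => ∃ A ∈ F, APc A ∧ x ∈ A ∧ p.1 ∈ A ∧ p.2 ∈ A)

/-- The covered pairs at scale `e`. -/
noncomputable def CovS (N : ℕ) (F : Finset (Finset ℤ)) (x : ℤ) (e : ℕ) : Finset (ℤ × ℤ) :=
  (Cov N F x).filter (fun p => Int.gcd (p.1 - x) (p.2 - x) = e)

/-- AP members of difference `d` through `x`. -/
noncomputable def Qd (F : Finset (Finset ℤ)) (x : ℤ) (d : ℕ) : Finset (Finset ℤ) :=
  (Pd F d).filter (fun A => x ∈ A)

/-- AP members of difference `d` avoiding `x`. -/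
noncomputable def Sd (F : Finset (Finset ℤ)) (x : ℤ) (d : ℕ) : Finset (Finset ℤ) :=
  (Pd F d).filter (fun A => x ∉ A)

/-- The pairs which miss an interval of the family avoiding `x`. -/
noncomputable def NTp (N : ℕ) (F : Finset (Finset ℤ)) (x : ℤ) : Finset (ℤ × ℤ) :=
  (Prs N x).filter (fun p => ∃ A ∈ Sd F x 1, p.1 ∉ A ∧ p.2 ∉ A)

/-- Number of coprime pairs `1 ≤ e < f ≤ n`. -/
def Phi (n : ℕ) : ℕ :=
  (((Icc 1 n) ×ˢ (Icc 1 n)).filter (fun p : ℕ × ℕ => p.1 < p.2 ∧ Nat.Coprime p.1 p.2)).card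

/-- Coprime pairs (of nonzero integers, `u < v`) inside one of the boxes `[-i, j]`, `(i, j) ∈ B`. -/
noncomputable def BoxCov (M : ℕ) (B : Finset (ℕ × ℕ)) : Finset (ℤ × ℤ) :=
  ((Icc (-(M : ℤ)) M) ×ˢ (Icc (-(M : ℤ)) M)).filter
    (fun p => p.1 < p.2 ∧ p.1 ≠ 0 ∧ p.2 ≠ 0 ∧ Int.gcd p.1 p.2 = 1 ∧
      ∃ q ∈ B, -(q.1 : ℤ) ≤ p.1 ∧ p.2 ≤ (q.2 : ℤ))

/-- Members `x - i d, …, x + j d` with `gcd i j ≥ 2` and `(i, j) ≠ (2, 2)`. -/
noncomputable def XS (F : Finset (Finset ℤ)) (x : ℤ) (d : ℕ) : Finset (Finset ℤ) :=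
  F.filter (fun A => ∃ i j : ℕ, A = apset (x - i * d) d (i + j) ∧ 2 ≤ Nat.gcd i j ∧ (i, j) ≠ (2, 2))

/-- Members which are five term progressions centred at `x`. -/
noncomputable def C5 (F : Finset (Finset ℤ)) (x : ℤ) : Finset (Finset ℤ) :=
  F.filter (fun A => ∃ d : ℕ, 1 ≤ d ∧ A = apset (x - 2 * d) d 4)

/-- Forbidden pairs: pairs to the right of `x` which enclose an interval of the family avoiding `x`. -/
noncomputable def Forb (N : ℕ) (F : Finset (Finset ℤ)) (x : ℤ) : Finset (ℤ × ℤ) :=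
  (Prs N x).filter (fun p => x < p.1 ∧ ∃ A ∈ Sd F x 1, ∀ y ∈ A, p.1 < y ∧ y < p.2)

/-- A progression plus fewer than `θ` (but at least one) points off its line. -/
def Quasi (θ : ℕ) (A : Finset ℤ) : Prop :=
  ∃ (a : ℤ) (d k : ℕ), 1 ≤ d ∧ apset a d k ⊆ A ∧ (A \ apset a d k).Nonempty ∧
    (A \ apset a d k).card < θ ∧ ∀ w ∈ A \ apset a d k, ¬ (d : ℤ) ∣ w - a

/-- Reflection of a family on `[N]`. -/
noncomputable def refl (N : ℕ) (F : Finset (Finset ℤ)) : Finset (Finset ℤ) :=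
  F.image (fun A => A.image (fun y => (N : ℤ) + 1 - y))

/-- The triangle area function. -/
noncomputable def gg (t : ℝ) : ℝ := (max t 0) ^ 2 / 2 - (max (t - 1 / 2) 0) ^ 2

/-- The error term. -/
noncomputable def lg (N : ℕ) : ℝ := 1 + Real.log N

/-- The conjectured maximum. -/
def bnd (N : ℕ) : ℕ := N.choose 2 + 1 + (N - 1) / 4

end Pool.Agent.Work.MP_1d0aa8_co
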