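import Pool.Agent.Work.MP_1d0aa8_co.Stmts

/-!
# MP_1d0aa8_co: item BOX
-/

set_option autoImplicit false

namespace Pool.Agent.Work.MP_1d0aa8_co

open Finset
open scoped Classical

namespace ItBox

lemma box_cop (h : SCop) (n : ℕ) : 0.587 * (n : ℝ) ^ 2 - 10 * n ≤ 2 * (Phi n : ℝ) + 1 := by
  have h1 := h n ((Icc 1 n) ×ˢ (Icc 1 n)) (by
    intro p hp
    simp only [mem_product, mem_Icc] at hp
    exact ⟨hp.1.1, hp.1.2, hp.2.1, hp.2.2⟩) (by
    intro p hp i j hi hi' hj hj'
    simp only [mem_product, mem_Icc] at hp ⊢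
    omega)
  have hc : (((Icc 1 n) ×ˢ (Icc 1 n) : Finset (ℕ × ℕ)).card : ℝ) = (n : ℝ) ^ 2 := by
    rw [card_product, Nat.card_Icc]
    simp only [Nat.add_sub_cancel]
    push_cast; ring
  rw [hc] at h1
  refine h1.trans ?_
  have hsub : (((Icc 1 n) ×ˢ (Icc 1 n)).filter (fun p : ℕ × ℕ => Nat.Coprime p.1 p.2)) ⊆
      (((Icc 1 n) ×ˢ (Icc 1 n)).filter (fun p : ℕ × ℕ => p.1 < p.2 ∧ Nat.Coprime p.1 p.2)) ∪
      ((((Icc 1 n) ×ˢ (Icc 1 n)).filter
        (fun p : ℕ × ℕ => p.1 < p.2 ∧ Nat.Coprime p.1 p.2)).image Prod.swap ∪ {(1, 1)}) := by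
    rintro ⟨i, j⟩ hp
    simp only [mem_filter, mem_product, mem_Icc] at hp
    obtain ⟨⟨hi, hj⟩, hij⟩ := hp
    rcases lt_trichotomy i j with hlt | heq | hgt
    · apply mem_union_left
      simp only [mem_filter, mem_product, mem_Icc]
      exact ⟨⟨hi, hj⟩, hlt, hij⟩
    · apply mem_union_right
      apply mem_union_right
      subst heq
      have : i = 1 := by
        rw [Nat.coprime_self] at hij; exact hij
      simp [this]
    · apply mem_union_right
      apply mem_union_left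
      rw [mem_image]
      refine ⟨(j, i), ?_, rfl⟩
      simp only [mem_filter, mem_product, mem_Icc]
      exact ⟨⟨hj, hi⟩, hgt, hij.symm⟩
  have hcard := card_le_card hsub
  have h2 := card_union_le
    (((Icc 1 n) ×ˢ (Icc 1 n)).filter (fun p : ℕ × ℕ => p.1 < p.2 ∧ Nat.Coprime p.1 p.2))
    ((((Icc 1 n) ×ˢ (Icc 1 n)).filter
        (fun p : ℕ × ℕ => p.1 < p.2 ∧ Nat.Coprime p.1 p.2)).image Prod.swap ∪ {(1, 1)})
  have h3 := card_union_le
    ((((Icc 1 n) ×ˢ (Icc 1 n)).filter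
        (fun p : ℕ × ℕ => p.1 < p.2 ∧ Nat.Coprime p.1 p.2)).image Prod.swap) {((1 : ℕ), (1 : ℕ))}
  have h4 := card_image_le (f := (Prod.swap : ℕ × ℕ → ℕ × ℕ))
    (s := ((Icc 1 n) ×ˢ (Icc 1 n)).filter (fun p : ℕ × ℕ => p.1 < p.2 ∧ Nat.Coprime p.1 p.2))
  have h5 : (((Icc 1 n) ×ˢ (Icc 1 n)).filter
      (fun p : ℕ × ℕ => p.1 < p.2 ∧ Nat.Coprime p.1 p.2)).card = Phi n := rfl
  rw [card_singleton] at h3
  have h6 : (((Icc 1 n) ×ˢ (Icc 1 n)).filter
      (fun p : ℕ × ℕ => Nat.Coprime p.1 p.2)).card ≤ 2 * Phi n + 1 := by omega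
  exact_mod_cast h6

/-- The triangle of coprime pairs. -/
noncomputable def T (n : ℕ) : Finset (ℕ × ℕ) :=
  ((Icc 1 n) ×ˢ (Icc 1 n)).filter (fun p : ℕ × ℕ => p.1 < p.2 ∧ Nat.Coprime p.1 p.2)

lemma mem_T {n : ℕ} {p : ℕ × ℕ} :
    p ∈ T n ↔ 1 ≤ p.1 ∧ p.1 < p.2 ∧ p.2 ≤ n ∧ Nat.Coprime p.1 p.2 := by
  simp only [T, mem_filter, mem_product, mem_Icc]
  constructor
  · rintro ⟨⟨⟨h1, _⟩, _, h4⟩, h5, h6⟩; exact ⟨h1, h5, h4, h6⟩
  · rintro ⟨h1, h5, h4, h6⟩; exact ⟨⟨⟨h1, by omega⟩, by omega, h4⟩, h5, h6⟩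

lemma card_T (n : ℕ) : (T n).card = Phi n := rfl

/-- The opposite sign part. -/
noncomputable def DD (B : Finset (ℕ × ℕ)) (l r : ℕ) : Finset (ℕ × ℕ) :=
  ((Icc 1 l) ×ˢ (Icc 1 r)).filter (fun p => ∃ q ∈ B, p.1 ≤ q.1 ∧ p.2 ≤ q.2)

lemma mem_DD {B : Finset (ℕ × ℕ)} {l r : ℕ} {p : ℕ × ℕ} :
    p ∈ DD B l r ↔ ((1 ≤ p.1 ∧ p.1 ≤ l) ∧ 1 ≤ p.2 ∧ p.2 ≤ r) ∧ ∃ q ∈ B, p.1 ≤ q.1 ∧ p.2 ≤ q.2 := by
  simp only [DD, mem_filter, mem_product, mem_Icc]

lemma cov_lower (B : Finset (ℕ × ℕ)) (M l r : ℕ) (hl : ∀ q ∈ B, q.1 ≤ l) (hr : ∀ q ∈ B, q.2 ≤ r)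
    (hlB : ∃ q ∈ B, q.1 = l) (hrB : ∃ q ∈ B, q.2 = r) (hlM : l ≤ M) (hrM : r ≤ M) :
    Phi r + Phi l + ((DD B l r).filter (fun p => Nat.Coprime p.1 p.2)).card ≤ (BoxCov M B).card := by
  set P1 := (T r).image (fun p : ℕ × ℕ => ((p.1 : ℤ), (p.2 : ℤ))) with hP1
  set P2 := (T l).image (fun p : ℕ × ℕ => (-(p.2 : ℤ), -(p.1 : ℤ))) with hP2
  set P3 := ((DD B l r).filter (fun p => Nat.Coprime p.1 p.2)).image
    (fun p : ℕ × ℕ => (-(p.1 : ℤ), (p.2 : ℤ))) with hP3
  have c1 : P1.card = Phi r := by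
    rw [hP1, card_image_of_injective, card_T]
    rintro ⟨a, b⟩ ⟨a', b'⟩ h
    simp only [Prod.mk.injEq, Nat.cast_inj] at h
    exact Prod.ext h.1 h.2
  have c2 : P2.card = Phi l := by
    rw [hP2, card_image_of_injective, card_T]
    rintro ⟨a, b⟩ ⟨a', b'⟩ h
    simp only [Prod.mk.injEq, neg_inj, Nat.cast_inj] at h
    exact Prod.ext h.2 h.1
  have c3 : P3.card = ((DD B l r).filter (fun p => Nat.Coprime p.1 p.2)).card := by
    rw [hP3, card_image_of_injective]
    rintro ⟨a, b⟩ ⟨a', b'⟩ h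
    simp only [Prod.mk.injEq, neg_inj, Nat.cast_inj] at h
    exact Prod.ext h.1 h.2
  have d12 : Disjoint P1 P2 := by
    rw [disjoint_left]
    intro z hz hz'
    rw [hP1, mem_image] at hz
    rw [hP2, mem_image] at hz'
    obtain ⟨p, hp, rfl⟩ := hz
    obtain ⟨p', hp', he⟩ := hz'
    rw [mem_T] at hp hp'
    simp only [Prod.mk.injEq] at he
    omega
  have d13 : Disjoint (P1 ∪ P2) P3 := by
    rw [disjoint_left]
    intro z hz hz'
    rw [hP3, mem_image] at hz'
    obtain ⟨p', hp', rfl⟩ := hz'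
    rw [mem_filter, mem_DD] at hp'
    rw [mem_union, hP1, hP2, mem_image, mem_image] at hz
    rcases hz with ⟨p, hp, he⟩ | ⟨p, hp, he⟩
    · rw [mem_T] at hp
      simp only [Prod.mk.injEq] at he
      omega
    · rw [mem_T] at hp
      simp only [Prod.mk.injEq] at he
      omega
  have hsub : (P1 ∪ P2) ∪ P3 ⊆ BoxCov M B := by
    intro z hz
    rw [mem_union, mem_union] at hz
    simp only [BoxCov, mem_filter, mem_product, mem_Icc]
    rcases hz with (hz | hz) | hz
    · rw [hP1, mem_image] at hz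
      obtain ⟨p, hp, rfl⟩ := hz
      rw [mem_T] at hp
      obtain ⟨q, hq, hqr⟩ := hrB
      refine ⟨by constructor <;> constructor <;> simp only [] <;> omega, by simp only []; omega,
        by simp only []; omega, by simp only []; omega, ?_, q, hq, ?_, ?_⟩
      · simp only [Int.gcd_natCast_natCast]; exact hp.2.2.2
      · simp only []; omega
      · simp only []; omega
    · rw [hP2, mem_image] at hz
      obtain ⟨p, hp, rfl⟩ := hz
      rw [mem_T] at hp
      obtain ⟨q, hq, hql⟩ := hlB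
      refine ⟨by constructor <;> constructor <;> simp only [] <;> omega, by simp only []; omega,
        by simp only []; omega, by simp only []; omega, ?_, q, hq, ?_, ?_⟩
      · simp only [Int.neg_gcd, Int.gcd_neg, Int.gcd_natCast_natCast]; exact hp.2.2.2.symm
      · simp only []; omega
      · simp only []; omega
    · rw [hP3, mem_image] at hz
      obtain ⟨p, hp, rfl⟩ := hz
      rw [mem_filter, mem_DD] at hp
      obtain ⟨⟨⟨⟨a1, a2⟩, a3, a4⟩, q, hq, hq1, hq2⟩, hcop⟩ := hp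
      refine ⟨by constructor <;> constructor <;> simp only [] <;> omega, by simp only []; omega,
        by simp only []; omega, by simp only []; omega, ?_, q, hq, ?_, ?_⟩
      · simp only [Int.neg_gcd, Int.gcd_natCast_natCast]; exact hcop
      · simp only []; omega
      · simp only []; omega
  calc Phi r + Phi l + ((DD B l r).filter (fun p => Nat.Coprime p.1 p.2)).card
      = ((P1 ∪ P2) ∪ P3).card := by
        rw [card_union_of_disjoint d13, card_union_of_disjoint d12, c1, c2, c3]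
    _ ≤ _ := card_le_card hsub

/-- ending of the box argument: pure real arithmetic -/
theorem box_ending {L0 R0 lr rr ar e cov W Bc : ℝ} (hL0nn : 0 ≤ L0) (hR0nn : 0 ≤ R0)
    (hlr : 0 ≤ lr) (hrr : 0 ≤ rr) (ha0 : 0 ≤ ar) (hl0 : lr ≤ L0) (hr0 : rr ≤ R0) (har : ar ≤ rr)
    (hcov2 : 0.587 * (W + e) - 15 * (lr + rr) - 1 ≤ cov)
    (hkey2 : (L0 + 2 * ar) * e ≤ L0 * W)
    (hB : Bc ≤ e + (lr + rr + 2)) :
    1.174 * (L0 + ar) * Bc ≤ L0 * cov + 1000 * (L0 + R0 + 1) ^ 2 := by
  have hfin1 : 1.174 * (L0 + ar) * Bc ≤ 1.174 * (L0 + ar) * (e + (lr + rr + 2)) := by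
    apply mul_le_mul_of_nonneg_left hB
    positivity
  have hfin2 : L0 * (0.587 * (W + e) - 15 * (lr + rr) - 1) ≤ L0 * cov :=
    mul_le_mul_of_nonneg_left hcov2 hL0nn
  have hfin3 : (L0 + ar) * (lr + rr + 2) ≤ 2 * (L0 + R0 + 1) ^ 2 := by
    have h1 : L0 + ar ≤ L0 + R0 + 1 := by linarith
    have h2 : lr + rr + 2 ≤ 2 * (L0 + R0 + 1) := by linarith
    calc (L0 + ar) * (lr + rr + 2) ≤ (L0 + R0 + 1) * (2 * (L0 + R0 + 1)) := by
          apply mul_le_mul h1 h2 (by linarith) (by linarith)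
      _ = 2 * (L0 + R0 + 1) ^ 2 := by ring
  have hfin4 : L0 * (15 * (lr + rr) + 1) ≤ 15 * (L0 + R0 + 1) ^ 2 := by
    have h1 : L0 ≤ L0 + R0 + 1 := by linarith
    have h2 : 15 * (lr + rr) + 1 ≤ 15 * (L0 + R0 + 1) := by linarith
    calc L0 * (15 * (lr + rr) + 1) ≤ (L0 + R0 + 1) * (15 * (L0 + R0 + 1)) := by
          apply mul_le_mul h1 h2 (by linarith) (by linarith)
      _ = 15 * (L0 + R0 + 1) ^ 2 := by ring
  have hsq : 0 ≤ (L0 + R0 + 1) ^ 2 := sq_nonneg _
  have e1 : 1.174 * (L0 + ar) * (e + (lr + rr + 2)) =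
      0.587 * (L0 * e) + 0.587 * ((L0 + 2 * ar) * e) + 1.174 * ((L0 + ar) * (lr + rr + 2)) := by
    ring
  have e2 : L0 * (0.587 * (W + e) - 15 * (lr + rr) - 1) =
      0.587 * (L0 * W) + 0.587 * (L0 * e) - L0 * (15 * (lr + rr) + 1) := by ring
  linarith

/-- the two inequalities on the number of extents -/
theorem box_keys {L0 lr rr ar e W : ℝ} (hl : 1 ≤ lr) (ha0 : 0 ≤ ar)
    (hl0 : lr ≤ L0) (hW : W = (lr ^ 2 + rr ^ 2) / 2 + lr * ar)
    (he : e ≤ lr * (rr - ar)) : (L0 + 2 * ar) * e ≤ L0 * W := by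
  have hWnn : 0 ≤ W := by
    rw [hW]
    have : 0 ≤ lr * ar := mul_nonneg (by linarith) ha0
    have h2 := sq_nonneg lr
    have h3 := sq_nonneg rr
    linarith
  have hlnn : 0 ≤ lr := by linarith
  have hkey : (lr + 2 * ar) * e ≤ lr * W := by
    have h1 : (lr + 2 * ar) * e ≤ (lr + 2 * ar) * (lr * (rr - ar)) := by
      apply mul_le_mul_of_nonneg_left he
      positivity
    have h2 : (lr + 2 * ar) * (lr * (rr - ar)) ≤ lr * W := by
      rw [hW]
      nlinarith [mul_nonneg hlnn (sq_nonneg (lr + 2 * ar - rr))]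
    linarith
  have hpos : 0 < lr + 2 * ar := by linarith
  have h1 : (L0 + 2 * ar) * ((lr + 2 * ar) * e) ≤ (L0 + 2 * ar) * (lr * W) := by
    apply mul_le_mul_of_nonneg_left hkey
    linarith
  have h2 : (L0 + 2 * ar) * (lr * W) ≤ (lr + 2 * ar) * (L0 * W) := by
    nlinarith [mul_nonneg (mul_nonneg ha0 hWnn) (sub_nonneg.2 hl0)]
  have h3 : (lr + 2 * ar) * ((L0 + 2 * ar) * e) ≤ (lr + 2 * ar) * (L0 * W) := by
    calc (lr + 2 * ar) * ((L0 + 2 * ar) * e) = (L0 + 2 * ar) * ((lr + 2 * ar) * e) := by ring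
      _ ≤ _ := h1.trans h2
  exact le_of_mul_le_mul_left h3 hpos

end ItBox

open ItBox

theorem thmBox (h : SCop) : SBox := by
  intro B l0 r0 a0 hB
  rcases B.eq_empty_or_nonempty with rfl | hne
  · simp only [card_empty, Nat.cast_zero, mul_zero]
    positivity
  obtain ⟨q1, hq1, hmax1⟩ := exists_max_image B (fun q => q.1) hne
  obtain ⟨q2, hq2, hmax2⟩ := exists_max_image B (fun q => q.2) hne
  set l := q1.1 with hl
  set r := q2.2 with hr
  have hl0 : l ≤ l0 := (hB q1 hq1).1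
  have hr0 : r ≤ r0 := (hB q2 hq2).2.2
  have har : a0 ≤ r := (hB q2 hq2).2.1
  have hl0' : (l : ℝ) ≤ l0 := by exact_mod_cast hl0
  have hr0' : (r : ℝ) ≤ r0 := by exact_mod_cast hr0
  have har' : (a0 : ℝ) ≤ r := by exact_mod_cast har
  have ha0 : (0 : ℝ) ≤ a0 := Nat.cast_nonneg _
  have hlnn : (0 : ℝ) ≤ l := Nat.cast_nonneg _
  have hrnn : (0 : ℝ) ≤ r := Nat.cast_nonneg _
  rcases Nat.eq_zero_or_pos l with hlz | hlpos
  · -- all left extents zero
    have hsub : B ⊆ ({0} : Finset ℕ) ×ˢ (range (r0 + 1)) := by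
      intro q hq
      have h1 := hmax1 q hq
      have h2 := (hB q hq).2.2
      simp only [mem_product, mem_singleton, mem_range]
      omega
    have hc := card_le_card hsub
    rw [card_product, card_singleton, card_range, one_mul] at hc
    have hc' : (B.card : ℝ) ≤ r0 + 1 := by exact_mod_cast hc
    have h3 : 1.174 * ((l0 : ℝ) + a0) * (B.card : ℝ) ≤ 1.174 * ((l0 : ℝ) + a0) * (r0 + 1) := by
      apply mul_le_mul_of_nonneg_left hc'
      positivity
    have h4 : (0 : ℝ) ≤ (l0 : ℝ) * ((BoxCov (l0 + r0) B).card : ℝ) := by positivity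
    have hl0nn : (0 : ℝ) ≤ l0 := Nat.cast_nonneg _
    have hr0nn : (0 : ℝ) ≤ r0 := Nat.cast_nonneg _
    nlinarith
  · have hlpos' : (1 : ℝ) ≤ l := by exact_mod_cast hlpos
    have hcov := cov_lower B (l0 + r0) l r (fun q hq => hmax1 q hq) (fun q hq => hmax2 q hq)
      ⟨q1, hq1, rfl⟩ ⟨q2, hq2, rfl⟩ (by omega) (by omega)
    -- COP on the opposite sign part
    have hD := h (l + r) (DD B l r) (by
      intro p hp
      rw [mem_DD] at hp
      omega) (by
      intro p hp i j hi hi' hj hj'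
      rw [mem_DD] at hp ⊢
      obtain ⟨⟨⟨a1, a2⟩, a3, a4⟩, q, hq, hq1, hq2⟩ := hp
      exact ⟨⟨⟨hi, by simp only []; omega⟩, hj, by simp only []; omega⟩, q, hq,
        by simp only []; omega, by simp only []; omega⟩)
    -- size of the opposite sign part
    set B' := B.filter (fun q => 1 ≤ q.1 ∧ a0 < q.2) with hB'
    have hDcard : l * a0 + B'.card ≤ (DD B l r).card := by
      have hsub : ((Icc 1 l) ×ˢ (Icc 1 a0)) ∪ B' ⊆ DD B l r := by
        intro p hp
        rw [mem_DD]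
        rw [mem_union] at hp
        rcases hp with hp | hp
        · simp only [mem_product, mem_Icc] at hp
          refine ⟨⟨hp.1, hp.2.1, by omega⟩, q1, hq1, hp.1.2, ?_⟩
          have := (hB q1 hq1).2.1
          omega
        · rw [hB', mem_filter] at hp
          have h1 := hmax1 p hp.1
          have h2 := hmax2 p hp.1
          exact ⟨⟨⟨hp.2.1, h1⟩, by omega, h2⟩, p, hp.1, le_rfl, le_rfl⟩
      have hdis : Disjoint ((Icc 1 l) ×ˢ (Icc 1 a0)) B' := by
        rw [disjoint_left]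
        intro p hp hp'
        simp only [mem_product, mem_Icc] at hp
        rw [hB', mem_filter] at hp'
        omega
      have := card_le_card hsub
      rw [card_union_of_disjoint hdis, card_product, Nat.card_Icc, Nat.card_Icc] at this
      simpa using this
    have hB'card : B'.card ≤ l * (r - a0) := by
      have hsub : B' ⊆ (Icc 1 l) ×ˢ (Ioc a0 r) := by
        intro q hq
        rw [hB', mem_filter] at hq
        have h1 := hmax1 q hq.1
        have h2 := hmax2 q hq.1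
        simp only [mem_product, mem_Icc, mem_Ioc]
        exact ⟨⟨hq.2.1, h1⟩, hq.2.2, h2⟩
      have := card_le_card hsub
      rwa [card_product, Nat.card_Icc, Nat.card_Ioc, Nat.add_sub_cancel] at this
    have hBcard : B.card ≤ B'.card + (l + r + 2) := by
      have hsub : B ⊆ B' ∪ ((({0} : Finset ℕ) ×ˢ (range (r + 1))) ∪
          ((range (l + 1)) ×ˢ ({a0} : Finset ℕ))) := by
        intro q hq
        have h1 := hmax1 q hq
        have h2 := hmax2 q hq
        have h3 := (hB q hq).2.1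
        by_cases hz : q.1 = 0
        · apply mem_union_right
          apply mem_union_left
          simp only [mem_product, mem_singleton, mem_range]
          omega
        · by_cases hz2 : q.2 = a0
          · apply mem_union_right
            apply mem_union_right
            simp only [mem_product, mem_singleton, mem_range]
            omega
          · apply mem_union_left
            rw [hB', mem_filter]
            exact ⟨hq, by omega, by omega⟩
      have h1 := card_le_card hsub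
      have h2 := card_union_le B' ((({0} : Finset ℕ) ×ˢ (range (r + 1))) ∪
          ((range (l + 1)) ×ˢ ({a0} : Finset ℕ)))
      have h3 := card_union_le (({0} : Finset ℕ) ×ˢ (range (r + 1)))
          ((range (l + 1)) ×ˢ ({a0} : Finset ℕ))
      rw [card_product, card_product, card_singleton, card_singleton, card_range, card_range] at h3
      omega
    -- pass to the reals
    have hPr := box_cop h r
    have hPl := box_cop h l
    have hcov' : (Phi r : ℝ) + Phi l +
        (((DD B l r).filter (fun p => Nat.Coprime p.1 p.2)).card : ℝ) ≤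
        ((BoxCov (l0 + r0) B).card : ℝ) := by exact_mod_cast hcov
    have hDcard' : (l : ℝ) * a0 + B'.card ≤ ((DD B l r).card : ℝ) := by exact_mod_cast hDcard
    have hB'card' : (B'.card : ℝ) ≤ l * (r - a0) := by
      have : (B'.card : ℝ) ≤ ((l * (r - a0) : ℕ) : ℝ) := by exact_mod_cast hB'card
      rw [Nat.cast_mul, Nat.cast_sub har] at this
      exact this
    have hBcard' : (B.card : ℝ) ≤ B'.card + (l + r + 2) := by exact_mod_cast hBcard
    have hDr : 0.587 * ((DD B l r).card : ℝ) - 10 * ((l : ℝ) + r) ≤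
        (((DD B l r).filter (fun p => Nat.Coprime p.1 p.2)).card : ℝ) := by
      have := hD
      push_cast at this
      exact this
    set e : ℝ := (B'.card : ℝ) with he
    have hennn : 0 ≤ e := Nat.cast_nonneg _
    set L0 : ℝ := (l0 : ℝ) with hL0
    set R0 : ℝ := (r0 : ℝ) with hR0
    set lr : ℝ := (l : ℝ) with hlr
    set rr : ℝ := (r : ℝ) with hrr
    set ar : ℝ := (a0 : ℝ) with har0
    set cov : ℝ := ((BoxCov (l0 + r0) B).card : ℝ) with hcovdef
    set W : ℝ := (lr ^ 2 + rr ^ 2) / 2 + lr * ar with hW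
    have hWnn : 0 ≤ W := by positivity
    have hcov2 : 0.587 * (W + e) - 15 * (lr + rr) - 1 ≤ cov := by
      have h1 : 0.587 * (lr * ar + e) ≤ 0.587 * ((DD B l r).card : ℝ) := by linarith
      rw [hW]
      linarith
    have hkey2 : (L0 + 2 * ar) * e ≤ L0 * W := box_keys hlpos' ha0 hl0' hW hB'card'
    have hL0nn : 0 ≤ L0 := by linarith
    have hR0nn : 0 ≤ R0 := by linarith
    exact box_ending hL0nn hR0nn hlnn hrnn ha0 hl0' hr0' har' hcov2 hkey2 hBcard'

end Pool.Agent.Work.MP_1d0aa8_co
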