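import Pool.Agent.Work.MP_1d0aa8_co.Stmts

set_option autoImplicit false

namespace Pool.Agent.Work.MP_1d0aa8_co

open Finset

namespace LowAux

def isAP (S : Finset ℕ) : Prop :=
  ∃ a d k : ℕ, S = (Finset.range (k + 1)).image (fun i => a + i * d)

theorem ap1 (a : ℕ) : isAP {a} := ⟨a, 0, 0, by simp⟩

theorem mem_im {a d k y : ℕ} :
    y ∈ (Finset.range (k + 1)).image (fun i => a + i * d) ↔ ∃ i, i ≤ k ∧ a + i * d = y := by
  simp only [mem_image, mem_range, Nat.lt_succ_iff]

theorem ap2' (a b : ℕ) (h : a ≤ b) : isAP {a, b} := by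
  refine ⟨a, b - a, 1, ?_⟩
  ext y
  rw [mem_im]
  simp only [mem_insert, mem_singleton]
  constructor
  · rintro (h1 | h1)
    · exact ⟨0, by omega, by omega⟩
    · exact ⟨1, by omega, by omega⟩
  · rintro ⟨i, hi, h2⟩
    have : i = 0 ∨ i = 1 := by omega
    rcases this with rfl | rfl <;> omega

theorem ap2 (a b : ℕ) : isAP {a, b} := by
  rcases le_total a b with h | h
  · exact ap2' a b h
  · rw [Finset.pair_comm]; exact ap2' b a h

theorem ap3' (a b c : ℕ) (h : 2 * b = a + c) (hab : a ≤ b) : isAP {a, b, c} := by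
  refine ⟨a, b - a, 2, ?_⟩
  ext y
  rw [mem_im]
  simp only [mem_insert, mem_singleton]
  constructor
  · rintro (h1 | h1 | h1)
    · exact ⟨0, by omega, by omega⟩
    · exact ⟨1, by omega, by omega⟩
    · exact ⟨2, by omega, by omega⟩
  · rintro ⟨i, hi, h2⟩
    have : i = 0 ∨ i = 1 ∨ i = 2 := by omega
    rcases this with rfl | rfl | rfl <;> omega

theorem ap3m (a b c : ℕ) (h : 2 * b = a + c) : isAP {a, b, c} := by
  rcases le_total a b with h1 | h1
  · exact ap3' a b c h h1
  · have : ({a, b, c} : Finset ℕ) = {c, b, a} := by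
      ext y; simp only [mem_insert, mem_singleton]; tauto
    rw [this]
    exact ap3' c b a (by omega) (by omega)

theorem ap3 (a b c : ℕ) (h : 2 * b = a + c ∨ 2 * a = b + c ∨ 2 * c = a + b) :
    isAP {a, b, c} := by
  rcases h with h | h | h
  · exact ap3m a b c h
  · have : ({a, b, c} : Finset ℕ) = {b, a, c} := by
      ext y; simp only [mem_insert, mem_singleton]; tauto
    rw [this]
    exact ap3m b a c h
  · have : ({a, b, c} : Finset ℕ) = {a, c, b} := by
      ext y; simp only [mem_insert, mem_singleton]; tauto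
    rw [this]
    exact ap3m a c b h

theorem ap4 (a b c e : ℕ) (h1 : a ≤ b) (h2 : c + a = 2 * b) (h3 : e + 2 * a = 3 * b) :
    isAP {a, b, c, e} := by
  refine ⟨a, b - a, 3, ?_⟩
  ext y
  rw [mem_im]
  simp only [mem_insert, mem_singleton]
  constructor
  · rintro (h1 | h1 | h1 | h1)
    · exact ⟨0, by omega, by omega⟩
    · exact ⟨1, by omega, by omega⟩
    · exact ⟨2, by omega, by omega⟩
    · exact ⟨3, by omega, by omega⟩
  · rintro ⟨i, hi, h2⟩
    have : i = 0 ∨ i = 1 ∨ i = 2 ∨ i = 3 := by omega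
    rcases this with rfl | rfl | rfl | rfl <;> omega

/-- `{x - 2d, x - d, x, x + d}` -/
def R1 (x d : ℕ) : Finset ℕ := {x - 2 * d, x - d, x, x + d}
/-- `{x - d, x, x + d, x + 2d}` -/
def R2 (x d : ℕ) : Finset ℕ := {x - d, x, x + d, x + 2 * d}
/-- `{x - 2d, x - d, x, x + d, x + 2d}` -/
def P5 (x d : ℕ) : Finset ℕ := {x - 2 * d, x - d, x, x + d, x + 2 * d}

theorem m1 {x d y : ℕ} : y ∈ R1 x d ↔ y = x - 2 * d ∨ y = x - d ∨ y = x ∨ y = x + d := by
  simp [R1]
theorem m2 {x d y : ℕ} : y ∈ R2 x d ↔ y = x - d ∨ y = x ∨ y = x + d ∨ y = x + 2 * d := by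
  simp [R2]
theorem m5 {x d y : ℕ} :
    y ∈ P5 x d ↔ y = x - 2 * d ∨ y = x - d ∨ y = x ∨ y = x + d ∨ y = x + 2 * d := by
  simp [P5]

theorem isAP_comm {A B : Finset ℕ} (h : isAP (A ∩ B)) : isAP (B ∩ A) := by
  rwa [Finset.inter_comm]

theorem c11' {x d e : ℕ} (hd : 1 ≤ d) (hde : d < e) (he : 2 * e < x) :
    isAP (R1 x d ∩ R1 x e) := by
  by_cases h : e = 2 * d
  · have : R1 x d ∩ R1 x e = {x - 2 * d, x} := by
      ext y
      simp only [mem_inter, m1, mem_insert, mem_singleton]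
      omega
    rw [this]; exact ap2 _ _
  · have : R1 x d ∩ R1 x e = {x} := by
      ext y
      simp only [mem_inter, m1, mem_singleton]
      omega
    rw [this]; exact ap1 _

theorem c22' {x d e : ℕ} (hd : 1 ≤ d) (hde : d < e) (he : 2 * e < x) :
    isAP (R2 x d ∩ R2 x e) := by
  by_cases h : e = 2 * d
  · have : R2 x d ∩ R2 x e = {x, x + 2 * d} := by
      ext y
      simp only [mem_inter, m2, mem_insert, mem_singleton]
      omega
    rw [this]; exact ap2 _ _
  · have : R2 x d ∩ R2 x e = {x} := by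
      ext y
      simp only [mem_inter, m2, mem_singleton]
      omega
    rw [this]; exact ap1 _

theorem c55' {x d e : ℕ} (hd : 1 ≤ d) (hde : d < e) (he : 2 * e < x) :
    isAP (P5 x d ∩ P5 x e) := by
  by_cases h : e = 2 * d
  · have : P5 x d ∩ P5 x e = {x - 2 * d, x, x + 2 * d} := by
      ext y
      simp only [mem_inter, m5, mem_insert, mem_singleton]
      omega
    rw [this]; exact ap3 _ _ _ (by omega)
  · have : P5 x d ∩ P5 x e = {x} := by
      ext y
      simp only [mem_inter, m5, mem_singleton]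
      omega
    rw [this]; exact ap1 _

theorem c11 {x d e : ℕ} (hd : 1 ≤ d) (he : 1 ≤ e) (hde : d ≠ e) (h1 : 2 * d < x)
    (h2 : 2 * e < x) : isAP (R1 x d ∩ R1 x e) := by
  rcases lt_or_gt_of_ne hde with h | h
  · exact c11' hd h h2
  · exact isAP_comm (c11' he h h1)

theorem c22 {x d e : ℕ} (hd : 1 ≤ d) (he : 1 ≤ e) (hde : d ≠ e) (h1 : 2 * d < x)
    (h2 : 2 * e < x) : isAP (R2 x d ∩ R2 x e) := by
  rcases lt_or_gt_of_ne hde with h | h
  · exact c22' hd h h2
  · exact isAP_comm (c22' he h h1)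

theorem c55 {x d e : ℕ} (hd : 1 ≤ d) (he : 1 ≤ e) (hde : d ≠ e) (h1 : 2 * d < x)
    (h2 : 2 * e < x) : isAP (P5 x d ∩ P5 x e) := by
  rcases lt_or_gt_of_ne hde with h | h
  · exact c55' hd h h2
  · exact isAP_comm (c55' he h h1)

theorem c12 {x d e : ℕ} (hd : 1 ≤ d) (he : 1 ≤ e) (h1 : 2 * d < x)
    (h2 : 2 * e < x) : isAP (R1 x d ∩ R2 x e) := by
  by_cases h : d = e
  · have : R1 x d ∩ R2 x e = {x - d, x, x + d} := by
      ext y
      simp only [mem_inter, m1, m2, mem_insert, mem_singleton]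
      omega
    rw [this]; exact ap3 _ _ _ (by omega)
  by_cases h' : e = 2 * d
  · have : R1 x d ∩ R2 x e = {x - 2 * d, x} := by
      ext y
      simp only [mem_inter, m1, m2, mem_insert, mem_singleton]
      omega
    rw [this]; exact ap2 _ _
  by_cases h'' : d = 2 * e
  · have : R1 x d ∩ R2 x e = {x, x + 2 * e} := by
      ext y
      simp only [mem_inter, m1, m2, mem_insert, mem_singleton]
      omega
    rw [this]; exact ap2 _ _
  · have : R1 x d ∩ R2 x e = {x} := by
      ext y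
      simp only [mem_inter, m1, m2, mem_singleton]
      omega
    rw [this]; exact ap1 _

theorem c15 {x d e : ℕ} (hd : 1 ≤ d) (he : 1 ≤ e) (h1 : 2 * d < x)
    (h2 : 2 * e < x) : isAP (R1 x d ∩ P5 x e) := by
  by_cases h : d = e
  · have : R1 x d ∩ P5 x e = {x - 2 * d, x - d, x, x + d} := by
      ext y
      simp only [mem_inter, m1, m5, mem_insert, mem_singleton]
      omega
    rw [this]; exact ap4 _ _ _ _ (by omega) (by omega) (by omega)
  by_cases h' : e = 2 * d
  · have : R1 x d ∩ P5 x e = {x - 2 * d, x} := by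
      ext y
      simp only [mem_inter, m1, m5, mem_insert, mem_singleton]
      omega
    rw [this]; exact ap2 _ _
  by_cases h'' : d = 2 * e
  · have : R1 x d ∩ P5 x e = {x - 2 * e, x, x + 2 * e} := by
      ext y
      simp only [mem_inter, m1, m5, mem_insert, mem_singleton]
      omega
    rw [this]; exact ap3 _ _ _ (by omega)
  · have : R1 x d ∩ P5 x e = {x} := by
      ext y
      simp only [mem_inter, m1, m5, mem_singleton]
      omega
    rw [this]; exact ap1 _

theorem c25 {x d e : ℕ} (hd : 1 ≤ d) (he : 1 ≤ e) (h1 : 2 * d < x)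
    (h2 : 2 * e < x) : isAP (R2 x d ∩ P5 x e) := by
  by_cases h : d = e
  · have : R2 x d ∩ P5 x e = {x - d, x, x + d, x + 2 * d} := by
      ext y
      simp only [mem_inter, m2, m5, mem_insert, mem_singleton]
      omega
    rw [this]; exact ap4 _ _ _ _ (by omega) (by omega) (by omega)
  by_cases h' : e = 2 * d
  · have : R2 x d ∩ P5 x e = {x, x + 2 * d} := by
      ext y
      simp only [mem_inter, m2, m5, mem_insert, mem_singleton]
      omega
    rw [this]; exact ap2 _ _
  by_cases h'' : d = 2 * e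
  · have : R2 x d ∩ P5 x e = {x - 2 * e, x, x + 2 * e} := by
      ext y
      simp only [mem_inter, m2, m5, mem_insert, mem_singleton]
      omega
    rw [this]; exact ap3 _ _ _ (by omega)
  · have : R2 x d ∩ P5 x e = {x} := by
      ext y
      simp only [mem_inter, m2, m5, mem_singleton]
      omega
    rw [this]; exact ap1 _

/-- The small members. -/
def G (N x D : ℕ) : Finset (Finset ℕ) :=
  (((Icc 1 N).erase x).powerset.filter (fun s => s.card ≤ 2)) \
    ((Icc 1 D).image (fun d => {x - 2 * d, x + d}) ∪ (Icc 1 D).image (fun d => {x - d, x + 2 * d}))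

/-- The family. -/
def Fm (N x D : ℕ) : Finset (Finset ℕ) :=
  (G N x D).image (insert x) ∪ ((Icc 1 D).image (R1 x) ∪ ((Icc 1 D).image (R2 x) ∪
    (Icc 1 D).image (P5 x)))

theorem small_inter {x : ℕ} {s B : Finset ℕ} (hx : x ∉ s) (hs : s.card ≤ 2) (hB : x ∈ B)
    (h : ∀ u v : ℕ, u ≠ v → s = {u, v} → u ∈ B → v ∈ B →
      (2 * u = x + v ∨ 2 * x = u + v ∨ 2 * v = x + u)) : isAP (insert x s ∩ B) := by
  have h1 : insert x s ∩ B = insert x (s ∩ B) := by
    rw [Finset.insert_inter_of_mem hB]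
  rw [h1]
  have h2 : (s ∩ B).card ≤ s.card := Finset.card_le_card Finset.inter_subset_left
  have h3 : (s ∩ B).card = 0 ∨ (s ∩ B).card = 1 ∨ (s ∩ B).card = 2 := by omega
  rcases h3 with h3 | h3 | h3
  · rw [Finset.card_eq_zero] at h3
    rw [h3]
    exact ap1 x
  · obtain ⟨y, hy⟩ := Finset.card_eq_one.1 h3
    rw [hy]
    exact ap2 x y
  · have h4 : s ∩ B = s := Finset.eq_of_subset_of_card_le Finset.inter_subset_left (by omega)
    obtain ⟨u, v, huv, hs2⟩ := Finset.card_eq_two.1 h3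
    rw [hs2]
    have hu : u ∈ s ∩ B := by rw [hs2]; simp
    have hv : v ∈ s ∩ B := by rw [hs2]; simp
    have := h u v huv (by rw [← h4, hs2]) (Finset.mem_inter.1 hu).2 (Finset.mem_inter.1 hv).2
    exact ap3 x u v (by omega)

theorem mG {N x D : ℕ} {s : Finset ℕ} (h : s ∈ G N x D) :
    x ∉ s ∧ s ⊆ Icc 1 N ∧ s.card ≤ 2 ∧
      (∀ d, 1 ≤ d → d ≤ D → s ≠ {x - 2 * d, x + d} ∧ s ≠ {x - d, x + 2 * d}) := by
  unfold G at h
  rw [mem_sdiff, mem_filter, mem_powerset, mem_union, not_or] at h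
  obtain ⟨⟨h1, h2⟩, h3, h4⟩ := h
  refine ⟨fun hx => ?_, fun y hy => Finset.mem_of_mem_erase (h1 hy), h2, ?_⟩
  · exact Finset.notMem_erase x _ (h1 hx)
  · intro d hd1 hd2
    refine ⟨fun he => h3 ?_, fun he => h4 ?_⟩
    · rw [mem_image]; exact ⟨d, mem_Icc.2 ⟨hd1, hd2⟩, he.symm⟩
    · rw [mem_image]; exact ⟨d, mem_Icc.2 ⟨hd1, hd2⟩, he.symm⟩

theorem g1 {N x D d : ℕ} {s : Finset ℕ} (h : s ∈ G N x D) (hd : 1 ≤ d) (hdD : d ≤ D)
    (hx : 2 * d < x) : isAP (insert x s ∩ R1 x d) := by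
  obtain ⟨h1, h2, h3, h4⟩ := mG h
  apply small_inter h1 h3 (m1.2 (by omega))
  intro u v huv hs hu hv
  have hux : u ≠ x := by rintro rfl; apply h1; rw [hs]; simp
  have hvx : v ≠ x := by rintro rfl; apply h1; rw [hs]; simp
  have h5 := (h4 d hd hdD).1
  have h6 : ¬ (u = x - 2 * d ∧ v = x + d) := by
    rintro ⟨rfl, rfl⟩; exact h5 hs
  have h7 : ¬ (v = x - 2 * d ∧ u = x + d) := by
    rintro ⟨rfl, rfl⟩; exact h5 (by rw [hs, Finset.pair_comm])
  rw [m1] at hu hv
  omega

theorem g2 {N x D d : ℕ} {s : Finset ℕ} (h : s ∈ G N x D) (hd : 1 ≤ d) (hdD : d ≤ D)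
    (hx : 2 * d < x) : isAP (insert x s ∩ R2 x d) := by
  obtain ⟨h1, h2, h3, h4⟩ := mG h
  apply small_inter h1 h3 (m2.2 (by omega))
  intro u v huv hs hu hv
  have hux : u ≠ x := by rintro rfl; apply h1; rw [hs]; simp
  have hvx : v ≠ x := by rintro rfl; apply h1; rw [hs]; simp
  have h5 := (h4 d hd hdD).2
  have h6 : ¬ (u = x - d ∧ v = x + 2 * d) := by
    rintro ⟨rfl, rfl⟩; exact h5 hs
  have h7 : ¬ (v = x - d ∧ u = x + 2 * d) := by
    rintro ⟨rfl, rfl⟩; exact h5 (by rw [hs, Finset.pair_comm])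
  rw [m2] at hu hv
  omega

theorem g5 {N x D d : ℕ} {s : Finset ℕ} (h : s ∈ G N x D) (hd : 1 ≤ d) (hdD : d ≤ D)
    (hx : 2 * d < x) : isAP (insert x s ∩ P5 x d) := by
  obtain ⟨h1, h2, h3, h4⟩ := mG h
  apply small_inter h1 h3 (m5.2 (by omega))
  intro u v huv hs hu hv
  have hux : u ≠ x := by rintro rfl; apply h1; rw [hs]; simp
  have hvx : v ≠ x := by rintro rfl; apply h1; rw [hs]; simp
  have h5 := h4 d hd hdD
  have h6 : ¬ (u = x - d ∧ v = x + 2 * d) := by
    rintro ⟨rfl, rfl⟩; exact h5.2 hs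
  have h7 : ¬ (v = x - d ∧ u = x + 2 * d) := by
    rintro ⟨rfl, rfl⟩; exact h5.2 (by rw [hs, Finset.pair_comm])
  have h8 : ¬ (u = x - 2 * d ∧ v = x + d) := by
    rintro ⟨rfl, rfl⟩; exact h5.1 hs
  have h9 : ¬ (v = x - 2 * d ∧ u = x + d) := by
    rintro ⟨rfl, rfl⟩; exact h5.1 (by rw [hs, Finset.pair_comm])
  rw [m5] at hu hv
  omega

theorem gg0 {N x D : ℕ} {s t : Finset ℕ} (h : s ∈ G N x D) (h' : t ∈ G N x D) (hst : s ≠ t) :
    isAP (insert x s ∩ insert x t) := by
  obtain ⟨h1, h2, h3, h4⟩ := mG h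
  obtain ⟨h1', h2', h3', h4'⟩ := mG h'
  apply small_inter h1 h3 (Finset.mem_insert_self x t)
  intro u v huv hs hu hv
  exfalso
  apply hst
  have hux : u ≠ x := by rintro rfl; apply h1; rw [hs]; simp
  have hvx : v ≠ x := by rintro rfl; apply h1; rw [hs]; simp
  have hut : u ∈ t := Finset.mem_of_mem_insert_of_ne hu hux
  have hvt : v ∈ t := Finset.mem_of_mem_insert_of_ne hv hvx
  apply Finset.eq_of_subset_of_card_le
  · rw [hs]
    intro y hy
    simp only [mem_insert, mem_singleton] at hy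
    rcases hy with rfl | rfl <;> assumption
  · rw [hs, Finset.card_pair huv]; exact h3'

theorem fam_inter {N x D : ℕ} (hx : 2 * D < x) {A B : Finset ℕ} (hA : A ∈ Fm N x D)
    (hB : B ∈ Fm N x D) (hAB : A ≠ B) : isAP (A ∩ B) := by
  unfold Fm at hA hB
  simp only [mem_union, mem_image, mem_Icc] at hA hB
  rcases hA with ⟨s, hs, rfl⟩ | ⟨d, hd, rfl⟩ | ⟨d, hd, rfl⟩ | ⟨d, hd, rfl⟩
  · rcases hB with ⟨t, ht, rfl⟩ | ⟨e, he, rfl⟩ | ⟨e, he, rfl⟩ | ⟨e, he, rfl⟩
    · exact gg0 hs ht (fun h => hAB (by rw [h]))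
    · exact g1 hs he.1 he.2 (by omega)
    · exact g2 hs he.1 he.2 (by omega)
    · exact g5 hs he.1 he.2 (by omega)
  · rcases hB with ⟨t, ht, rfl⟩ | ⟨e, he, rfl⟩ | ⟨e, he, rfl⟩ | ⟨e, he, rfl⟩
    · exact isAP_comm (g1 ht hd.1 hd.2 (by omega))
    · exact c11 hd.1 he.1 (fun h => hAB (by rw [h])) (by omega) (by omega)
    · exact c12 hd.1 he.1 (by omega) (by omega)
    · exact c15 hd.1 he.1 (by omega) (by omega)
  · rcases hB with ⟨t, ht, rfl⟩ | ⟨e, he, rfl⟩ | ⟨e, he, rfl⟩ | ⟨e, he, rfl⟩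
    · exact isAP_comm (g2 ht hd.1 hd.2 (by omega))
    · exact isAP_comm (c12 he.1 hd.1 (by omega) (by omega))
    · exact c22 hd.1 he.1 (fun h => hAB (by rw [h])) (by omega) (by omega)
    · exact c25 hd.1 he.1 (by omega) (by omega)
  · rcases hB with ⟨t, ht, rfl⟩ | ⟨e, he, rfl⟩ | ⟨e, he, rfl⟩ | ⟨e, he, rfl⟩
    · exact isAP_comm (g5 ht hd.1 hd.2 (by omega))
    · exact isAP_comm (c15 he.1 hd.1 (by omega) (by omega))
    · exact isAP_comm (c25 he.1 hd.1 (by omega) (by omega))
    · exact c55 hd.1 he.1 (fun h => hAB (by rw [h])) (by omega) (by omega)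

/-! ### cardinality -/

theorem card_small (E : Finset ℕ) : (E.powerset.filter (fun s => s.card ≤ 2)).card
    = 1 + E.card + E.card.choose 2 := by
  have h : E.powerset.filter (fun s => s.card ≤ 2) =
      E.powersetCard 0 ∪ (E.powersetCard 1 ∪ E.powersetCard 2) := by
    ext s
    simp only [mem_filter, mem_powerset, mem_union, mem_powersetCard]
    constructor
    · rintro ⟨h1, h2⟩
      have : s.card = 0 ∨ s.card = 1 ∨ s.card = 2 := by omega
      tauto
    · rintro (⟨h1, h2⟩ | ⟨h1, h2⟩ | ⟨h1, h2⟩) <;> exact ⟨h1, by omega⟩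
  rw [h, card_union_of_disjoint, card_union_of_disjoint, card_powersetCard, card_powersetCard,
    card_powersetCard]
  · simp; ring
  · rw [Finset.disjoint_left]
    intro s hs hs'
    simp only [mem_powersetCard] at hs hs'
    omega
  · rw [Finset.disjoint_left]
    intro s hs hs'
    simp only [mem_powersetCard, mem_union] at hs hs'
    omega

theorem pair_eq {a b c e : ℕ} (h : ({a, b} : Finset ℕ) = {c, e}) :
    (a = c ∧ b = e) ∨ (a = e ∧ b = c) := by
  have h1 : a ∈ ({c, e} : Finset ℕ) := by rw [← h]; simp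
  have h2 : b ∈ ({c, e} : Finset ℕ) := by rw [← h]; simp
  have h3 : c ∈ ({a, b} : Finset ℕ) := by rw [h]; simp
  have h4 : e ∈ ({a, b} : Finset ℕ) := by rw [h]; simp
  simp only [mem_insert, mem_singleton] at h1 h2 h3 h4
  omega

theorem card_G {N x D : ℕ} (hx : 2 * D < x) (hN : x + 2 * D ≤ N) :
    (G N x D).card + 2 * D = 1 + (N - 1) + (N - 1).choose 2 := by
  have hE : ((Icc 1 N).erase x).card = N - 1 := by
    rw [Finset.card_erase_of_mem (mem_Icc.2 ⟨by omega, by omega⟩)]; simp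
  unfold G
  rw [Finset.card_sdiff_of_subset]
  · rw [card_small, hE]
    have h1 : ((Icc 1 D).image (fun d => ({x - 2 * d, x + d} : Finset ℕ)) ∪
        (Icc 1 D).image (fun d => ({x - d, x + 2 * d} : Finset ℕ))).card = 2 * D := by
      rw [card_union_of_disjoint, card_image_of_injOn, card_image_of_injOn]
      · simp; ring
      · intro d hd e he hde
        simp only [coe_Icc, Set.mem_Icc] at hd he
        have := pair_eq hde
        omega
      · intro d hd e he hde
        simp only [coe_Icc, Set.mem_Icc] at hd he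
        have := pair_eq hde
        omega
      · rw [Finset.disjoint_left]
        intro s hs hs'
        simp only [mem_image, mem_Icc] at hs hs'
        obtain ⟨d, hd, rfl⟩ := hs
        obtain ⟨e, he, hde⟩ := hs'
        have := pair_eq hde
        omega
    rw [h1]
    have h2 : 2 * D ≤ 1 + (N - 1) + (N - 1).choose 2 := by omega
    omega
  · intro s hs
    simp only [mem_union, mem_image, mem_Icc] at hs
    rw [mem_filter, mem_powerset]
    rcases hs with ⟨d, hd, rfl⟩ | ⟨d, hd, rfl⟩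
    · refine ⟨?_, Finset.card_le_two⟩
      intro y hy
      simp only [mem_insert, mem_singleton] at hy
      rw [mem_erase, mem_Icc]
      omega
    · refine ⟨?_, Finset.card_le_two⟩
      intro y hy
      simp only [mem_insert, mem_singleton] at hy
      rw [mem_erase, mem_Icc]
      omega

theorem inj1 {x D : ℕ} (hx : 2 * D < x) : Set.InjOn (R1 x) (Icc 1 D : Finset ℕ) := by
  intro d hd e he h
  simp only [coe_Icc, Set.mem_Icc] at hd he
  have h1 : x + d ∈ R1 x e := by rw [← h, m1]; omega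
  have h2 : x + e ∈ R1 x d := by rw [h, m1]; omega
  rw [m1] at h1 h2
  omega

theorem inj2 {x D : ℕ} (hx : 2 * D < x) : Set.InjOn (R2 x) (Icc 1 D : Finset ℕ) := by
  intro d hd e he h
  simp only [coe_Icc, Set.mem_Icc] at hd he
  have h1 : x - d ∈ R2 x e := by rw [← h, m2]; omega
  have h2 : x - e ∈ R2 x d := by rw [h, m2]; omega
  rw [m2] at h1 h2
  omega

theorem inj5 {x D : ℕ} (hx : 2 * D < x) : Set.InjOn (P5 x) (Icc 1 D : Finset ℕ) := by
  intro d hd e he h
  simp only [coe_Icc, Set.mem_Icc] at hd he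
  have h1 : x + 2 * d ∈ P5 x e := by rw [← h, m5]; omega
  have h2 : x + 2 * e ∈ P5 x d := by rw [h, m5]; omega
  rw [m5] at h1 h2
  omega

theorem cR1 {x d : ℕ} (hd : 1 ≤ d) (hx : 2 * d < x) : (R1 x d).card = 4 := by
  unfold R1
  rw [card_insert_of_notMem, card_insert_of_notMem, card_insert_of_notMem, card_singleton]
  all_goals simp only [mem_insert, mem_singleton]; omega

theorem cR2 {x d : ℕ} (hd : 1 ≤ d) (hx : 2 * d < x) : (R2 x d).card = 4 := by
  unfold R2
  rw [card_insert_of_notMem, card_insert_of_notMem, card_insert_of_notMem, card_singleton]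
  all_goals simp only [mem_insert, mem_singleton]; omega

theorem cP5 {x d : ℕ} (hd : 1 ≤ d) (hx : 2 * d < x) : (P5 x d).card = 5 := by
  unfold P5
  rw [card_insert_of_notMem, card_insert_of_notMem, card_insert_of_notMem, card_insert_of_notMem,
    card_singleton]
  all_goals simp only [mem_insert, mem_singleton]; omega

theorem card_Fm {N x D : ℕ} (hx : 2 * D < x) (hN : x + 2 * D ≤ N) :
    (Fm N x D).card = (G N x D).card + 3 * D := by
  unfold Fm
  rw [card_union_of_disjoint, card_union_of_disjoint, card_union_of_disjoint,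
    card_image_of_injOn (inj1 hx), card_image_of_injOn (inj2 hx), card_image_of_injOn (inj5 hx),
    card_image_of_injOn]
  · simp; ring
  · intro s hs t ht hst
    have h1 := (mG (Finset.mem_coe.1 hs)).1
    have h2 := (mG (Finset.mem_coe.1 ht)).1
    have h3 : (insert x s).erase x = (insert x t).erase x := by
      rw [show insert x s = insert x t from hst]
    rwa [Finset.erase_insert h1, Finset.erase_insert h2] at h3
  · rw [Finset.disjoint_left]
    intro s hs hs'
    simp only [mem_image, mem_Icc] at hs hs'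
    obtain ⟨d, hd, rfl⟩ := hs
    obtain ⟨e, he, hde⟩ := hs'
    have h1 := cR2 hd.1 (show 2 * d < x by omega)
    have h2 := cP5 he.1 (show 2 * e < x by omega)
    rw [hde] at h2
    omega
  · rw [Finset.disjoint_left]
    intro s hs hs'
    simp only [mem_image, mem_Icc, mem_union] at hs hs'
    obtain ⟨d, hd, rfl⟩ := hs
    rcases hs' with ⟨e, he, hde⟩ | ⟨e, he, hde⟩
    · have h1 : x + 2 * e ∈ R1 x d := by rw [← hde, m2]; omega
      have h2 : x - 2 * d ∈ R2 x e := by rw [hde, m1]; omega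
      rw [m1] at h1
      rw [m2] at h2
      omega
    · have h1 := cR1 hd.1 (show 2 * d < x by omega)
      have h2 := cP5 he.1 (show 2 * e < x by omega)
      rw [hde] at h2
      omega
  · rw [Finset.disjoint_left]
    intro s hs hs'
    simp only [mem_image, mem_Icc, mem_union] at hs hs'
    obtain ⟨t, ht, rfl⟩ := hs
    obtain ⟨h1, h2, h3, h4⟩ := mG ht
    have hc : (insert x t).card ≤ 3 := by
      rw [Finset.card_insert_of_notMem h1]; omega
    rcases hs' with ⟨e, he, hde⟩ | ⟨e, he, hde⟩ | ⟨e, he, hde⟩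
    · have := cR1 he.1 (show 2 * e < x by omega)
      rw [hde] at this; omega
    · have := cR2 he.1 (show 2 * e < x by omega)
      rw [hde] at this; omega
    · have := cP5 he.1 (show 2 * e < x by omega)
      rw [hde] at this; omega

end LowAux

open LowAux in
theorem thmLower : SLower := by
  intro N hN
  obtain ⟨x, hx⟩ : ∃ x, x = (N + 1) / 2 := ⟨_, rfl⟩
  obtain ⟨D, hD⟩ : ∃ D, D = (N - 1) / 4 := ⟨_, rfl⟩
  have h1 : 2 * D < x := by omega
  have h2 : x + 2 * D ≤ N := by omega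
  refine ⟨Fm N x D, ⟨?_, ?_⟩, ?_, x, ?_⟩
  · intro A hA
    rw [mem_powerset]
    unfold Fm at hA
    simp only [mem_union, mem_image, mem_Icc] at hA
    rcases hA with ⟨s, hs, rfl⟩ | ⟨d, hd, rfl⟩ | ⟨d, hd, rfl⟩ | ⟨d, hd, rfl⟩
    · obtain ⟨-, h3, -, -⟩ := mG hs
      intro y hy
      rw [mem_insert] at hy
      rcases hy with rfl | hy
      · rw [mem_Icc]; omega
      · exact h3 hy
    · intro y hy
      rw [m1] at hy
      rw [mem_Icc]; omega
    · intro y hy
      rw [m2] at hy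
      rw [mem_Icc]; omega
    · intro y hy
      rw [m5] at hy
      rw [mem_Icc]; omega
  · intro A hA B hB hAB
    exact fam_inter h1 hA hB hAB
  · rw [card_Fm h1 h2]
    have h3 := card_G h1 h2
    unfold bnd
    rw [← hD]
    obtain ⟨m, rfl⟩ : ∃ m, N = m + 1 := ⟨N - 1, by omega⟩
    have h4 : (m + 1).choose 2 = m + m.choose 2 := by
      rw [Nat.choose_succ_succ' m 1]; simp
    simp only [Nat.add_sub_cancel] at h3
    omega
  · intro A hA
    unfold Fm at hA
    simp only [mem_union, mem_image, mem_Icc] at hA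
    rcases hA with ⟨s, hs, rfl⟩ | ⟨d, hd, rfl⟩ | ⟨d, hd, rfl⟩ | ⟨d, hd, rfl⟩
    · exact Finset.mem_insert_self x s
    · rw [m1]; omega
    · rw [m2]; omega
    · rw [m5]; omega

end Pool.Agent.Work.MP_1d0aa8_co
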