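import Pool.Agent.Work.MP_1d0aa8_co.Stmts

/-!
# MP_1d0aa8_co, item PHI
-/

set_option autoImplicit false

namespace Pool.Agent.Work.MP_1d0aa8_co

open Finset
open scoped Classical

namespace PhiAux

/-- pairs `1 ≤ e < f ≤ m` -/
def T (m : ℕ) : Finset (ℕ × ℕ) := ((Icc 1 m) ×ˢ (Icc 1 m)).filter (fun p => p.1 < p.2)

theorem card_T (m : ℕ) : ((T m).card : ℝ) = (m : ℝ) * (m - 1) / 2 := by
  induction m with
  | zero => simp [T]
  | succ m ih =>
    have h : T (m + 1) = T m ∪ (Icc 1 m).image (fun e => (e, m + 1)) := by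
      ext ⟨e, f⟩
      simp only [T, mem_filter, mem_product, mem_Icc, mem_union, mem_image, Prod.mk.injEq]
      constructor
      · rintro ⟨⟨⟨h1, h2⟩, h3, h4⟩, h5⟩
        by_cases hf : f = m + 1
        · right
          exact ⟨e, ⟨h1, by omega⟩, rfl, hf.symm⟩
        · left
          omega
      · rintro (h | ⟨a, ⟨h1, h2⟩, rfl, rfl⟩)
        · omega
        · omega
    have hd : Disjoint (T m) ((Icc 1 m).image (fun e => (e, m + 1))) := by
      rw [Finset.disjoint_left]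
      rintro ⟨e, f⟩ h1 h2
      simp only [T, mem_filter, mem_product, mem_Icc, mem_image, Prod.mk.injEq] at h1 h2
      obtain ⟨a, _, _, h3⟩ := h2
      omega
    rw [h, card_union_of_disjoint hd, card_image_of_injective _ (fun a b h => by simpa using h)]
    push_cast
    rw [ih]
    simp
    ring

/-- the sieving moduli -/
def L : Finset ℕ := {2, 3, 5, 7, 11, 13, 17, 19, 23, 29, 31}

def K (n : ℕ) : Finset ℕ := L ∪ (range n).image (fun j : ℕ => 2 * j + 37)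

theorem tail (n : ℕ) : ∑ j ∈ range n, (1 : ℝ) / ((2 * j + 37 : ℕ) : ℝ) ^ 2
    ≤ 1 / 72 - 1 / (2 * (2 * (n : ℝ) + 36)) := by
  induction n with
  | zero => norm_num
  | succ n ih =>
    rw [sum_range_succ]
    refine le_trans (add_le_add_left ih _) ?_
    push_cast
    have hn : (0 : ℝ) ≤ n := Nat.cast_nonneg n
    have h : (1 : ℝ) / (2 * n + 37) ^ 2 ≤ 1 / (2 * (2 * n + 36)) - 1 / (2 * (2 * (n + 1) + 36)) := by
      rw [div_sub_div _ _ (by positivity) (by positivity),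
        div_le_div_iff₀ (by positivity) (by positivity)]
      nlinarith
    linarith

theorem sumK (n : ℕ) : ∑ k ∈ K n, (1 : ℝ) / (k : ℝ) ^ 2 ≤ 0.46 := by
  have h1 : ∑ k ∈ K n, (1 : ℝ) / (k : ℝ) ^ 2 ≤ ∑ k ∈ L, (1 : ℝ) / (k : ℝ) ^ 2
      + ∑ k ∈ (range n).image (fun j : ℕ => 2 * j + 37), (1 : ℝ) / (k : ℝ) ^ 2 := by
    rw [K, ← sum_union_inter]
    have : (0 : ℝ) ≤ ∑ k ∈ L ∩ (range n).image (fun j : ℕ => 2 * j + 37), (1 : ℝ) / (k : ℝ) ^ 2 :=
      sum_nonneg (fun i _ => by positivity)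
    linarith
  have h2 : ∑ k ∈ (range n).image (fun j : ℕ => 2 * j + 37), (1 : ℝ) / (k : ℝ) ^ 2
      = ∑ j ∈ range n, (1 : ℝ) / ((2 * j + 37 : ℕ) : ℝ) ^ 2 := by
    rw [sum_image]
    intro a _ b _ h
    simp only at h
    omega
  have h3 := tail n
  have h4 : (0 : ℝ) ≤ 1 / (2 * (2 * (n : ℝ) + 36)) := by positivity
  have h5 : ∑ k ∈ L, (1 : ℝ) / (k : ℝ) ^ 2 ≤ 0.4461 := by
    simp [L]
    norm_num
  rw [h2] at h1
  have h6 : (1 : ℝ) / 72 ≤ 0.0139 := by norm_num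
  linarith

theorem mem_K {n p : ℕ} (hp : p.Prime) (hn : p ≤ n) : p ∈ K n := by
  by_cases h : p < 37
  · refine mem_union_left _ ?_
    interval_cases p <;> first | (exfalso; revert hp; norm_num; done) | simp [L]
  · refine mem_union_right _ ?_
    rcases hp.eq_two_or_odd with h2 | h2
    · omega
    · exact mem_image.2 ⟨(p - 37) / 2, mem_range.2 (by omega), by omega⟩

theorem one_le_of_mem_K {n k : ℕ} (h : k ∈ K n) : 1 ≤ k := by
  rcases mem_union.1 h with h | h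
  · simp only [L, mem_insert, mem_singleton] at h
    omega
  · obtain ⟨j, _, rfl⟩ := mem_image.1 h
    omega

attribute [irreducible] K

theorem mem_T {m e f : ℕ} : (e, f) ∈ T m ↔ (1 ≤ e ∧ e ≤ m) ∧ (1 ≤ f ∧ f ≤ m) ∧ e < f := by
  simp only [T, mem_filter, mem_product, mem_Icc]
  tauto

theorem coverpt {n e f : ℕ} (h : (e, f) ∈ T n) (h6 : ¬ Nat.Coprime e f) :
    ∃ p ∈ K n, ∃ a b : ℕ, (a, b) ∈ T (n / p) ∧ p * a = e ∧ p * b = f := by
  obtain ⟨p, hp, ⟨a, ha⟩, ⟨b, hb⟩⟩ := Nat.Prime.not_coprime_iff_dvd.1 h6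
  obtain ⟨⟨h1, h2⟩, ⟨h3, h4⟩, h5⟩ := mem_T.1 h
  have hp0 := hp.pos
  have ha1 : 1 ≤ a := by
    rcases Nat.eq_zero_or_pos a with h | h
    · rw [h, Nat.mul_zero] at ha
      omega
    · exact h
  have hb1 : 1 ≤ b := by
    rcases Nat.eq_zero_or_pos b with h | h
    · rw [h, Nat.mul_zero] at hb
      omega
    · exact h
  have hpn : p ≤ n := by
    have : p ≤ p * a := Nat.le_mul_of_pos_right p ha1
    rw [← ha] at this
    exact this.trans h2
  refine ⟨p, mem_K hp hpn, a, b, mem_T.2 ⟨⟨ha1, ?_⟩, ⟨hb1, ?_⟩, ?_⟩, ha.symm, hb.symm⟩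
  · rw [Nat.le_div_iff_mul_le hp0, mul_comm, ← ha]
    exact h2
  · rw [Nat.le_div_iff_mul_le hp0, mul_comm, ← hb]
    exact h4
  · rw [ha, hb] at h5
    exact Nat.lt_of_mul_lt_mul_left h5

theorem cover (n : ℕ) : (T n).filter (fun p => ¬ Nat.Coprime p.1 p.2)
    ⊆ (K n).biUnion (fun k => (T (n / k)).image (fun p => (k * p.1, k * p.2))) := by
  rintro ⟨e, f⟩ hx
  rw [mem_filter] at hx
  obtain ⟨h1, h2⟩ := hx
  obtain ⟨p, hp, a, b, hab, h3, h4⟩ := coverpt h1 h2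
  rw [mem_biUnion]
  refine ⟨p, hp, ?_⟩
  rw [mem_image]
  refine ⟨(a, b), hab, ?_⟩
  rw [← h3, ← h4]

theorem card_piece (n k : ℕ) (hk : 1 ≤ k) :
    (((T (n / k)).image (fun p => (k * p.1, k * p.2))).card : ℝ)
      ≤ (n : ℝ) ^ 2 / 2 * (1 / (k : ℝ) ^ 2) := by
  have h1 : (((T (n / k)).image (fun p => (k * p.1, k * p.2))).card : ℝ) ≤ ((T (n / k)).card : ℝ) := by
    exact_mod_cast card_image_le
  rw [card_T] at h1
  have hk' : (0 : ℝ) < k := by exact_mod_cast hk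
  have h2 : ((n / k : ℕ) : ℝ) ≤ (n : ℝ) / k := Nat.cast_div_le
  have h3 : (0 : ℝ) ≤ ((n / k : ℕ) : ℝ) := Nat.cast_nonneg _
  have h4 : ((n / k : ℕ) : ℝ) ^ 2 ≤ ((n : ℝ) / k) ^ 2 := pow_le_pow_left₀ h3 h2 2
  have h5 : ((n : ℝ) / k) ^ 2 = (n : ℝ) ^ 2 * (1 / (k : ℝ) ^ 2) := by
    field_simp
  nlinarith

end PhiAux

open PhiAux in
theorem thmPhi : SPhi := by
  intro n
  have h1 : Phi n = ((T n).filter (fun p => Nat.Coprime p.1 p.2)).card := by
    unfold Phi T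
    rw [filter_filter]
  have h2 : ((T n).filter (fun p => Nat.Coprime p.1 p.2)).card
      + ((T n).filter (fun p => ¬ Nat.Coprime p.1 p.2)).card = (T n).card :=
    card_filter_add_card_filter_not (s := T n) (fun p => Nat.Coprime p.1 p.2)
  have h3 : (((T n).filter (fun p => ¬ Nat.Coprime p.1 p.2)).card : ℝ)
      ≤ ∑ k ∈ K n, (n : ℝ) ^ 2 / 2 * (1 / (k : ℝ) ^ 2) := by
    have h := (card_le_card (cover n)).trans card_biUnion_le
    have h' : (((T n).filter (fun p => ¬ Nat.Coprime p.1 p.2)).card : ℝ)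
      ≤ ∑ k ∈ K n, (((T (n / k)).image (fun p => (k * p.1, k * p.2))).card : ℝ) := by
      exact_mod_cast h
    exact h'.trans (sum_le_sum fun k hk => card_piece n k (one_le_of_mem_K hk))
  rw [← mul_sum] at h3
  have h4 := sumK n
  have h5 := card_T n
  have h6 : (0 : ℝ) ≤ (n : ℝ) ^ 2 / 2 := by positivity
  have h7 := mul_le_mul_of_nonneg_left h4 h6
  have h8 : (((T n).filter (fun p => Nat.Coprime p.1 p.2)).card : ℝ)
      + (((T n).filter (fun p => ¬ Nat.Coprime p.1 p.2)).card : ℝ) = ((T n).card : ℝ) := by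
    exact_mod_cast h2
  rw [h1]
  nlinarith

end Pool.Agent.Work.MP_1d0aa8_co
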