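import Pool.Agent.Work.MP_1d0aa8_co.Bd.B01
import Pool.Agent.Work.MP_1d0aa8_co.Stmts

/-!
# MP_1d0aa8_co: item T1
-/

set_option autoImplicit false

namespace Pool.Agent.Work.MP_1d0aa8_co

open Finset
open scoped Classical

namespace TOne

theorem mem_Sd {F : Finset (Finset ℤ)} {x : ℤ} {A : Finset ℤ} (h : A ∈ Sd F x 1) :
    A ∈ F ∧ x ∉ A ∧ A.Nonempty ∧ (∀ p ∈ A, ∀ q ∈ A, ∀ y : ℤ, p ≤ y → y ≤ q → y ∈ A) := by
  unfold Sd Pd at h
  rw [mem_filter, mem_filter] at h
  obtain ⟨⟨hF, a0, k0, hk0, rfl⟩, hx⟩ := h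
  refine ⟨hF, hx, ⟨a0, ?_⟩, ?_⟩
  · rw [mem_apset]; exact ⟨0, Nat.zero_le _, by simp⟩
  · intro p hp q hq y h1 h2
    rw [mem_apset' le_rfl] at hp hq ⊢
    refine ⟨by linarith [hp.1], by linarith [hq.2.1], ?_⟩
    simp

/-- least element, `0` for the empty set -/
noncomputable def lo (A : Finset ℤ) : ℤ := if h : A.Nonempty then A.min' h else 0

/-- greatest element, `0` for the empty set -/
noncomputable def hi (A : Finset ℤ) : ℤ := if h : A.Nonempty then A.max' h else 0

theorem lo_mem {A : Finset ℤ} (h : A.Nonempty) : lo A ∈ A := by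
  unfold lo; rw [dif_pos h]; exact min'_mem _ _

theorem hi_mem {A : Finset ℤ} (h : A.Nonempty) : hi A ∈ A := by
  unfold hi; rw [dif_pos h]; exact max'_mem _ _

theorem lo_le {A : Finset ℤ} {y : ℤ} (h : y ∈ A) : lo A ≤ y := by
  unfold lo; rw [dif_pos ⟨y, h⟩]; exact min'_le _ _ h

theorem le_hi {A : Finset ℤ} {y : ℤ} (h : y ∈ A) : y ≤ hi A := by
  unfold hi; rw [dif_pos ⟨y, h⟩]; exact le_max' _ _ h

theorem choose_two_succ (n : ℕ) (h : 1 ≤ n) : n.choose 2 = (n - 1).choose 2 + (n - 1) := by
  obtain ⟨m, rfl⟩ : ∃ m, n = m + 1 := ⟨n - 1, by omega⟩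
  rw [Nat.add_sub_cancel, Nat.choose_succ_succ' m 1, Nat.choose_one_right]
  exact Nat.add_comm _ _

/-- The near-star regime with everything on the right. -/
theorem rightCase (h1 : SStar) (h2 : SSlot) (h3 : SMargin) (h4 : SScale) (h5 : SNearSmall)
    (h6 : SNearCount) (h7 : SExtras) (h8 : SC5) (N : ℕ) (hN : 5 ≤ N) (F : Finset (Finset ℤ))
    (x : ℤ) (k : ℕ) (hF : Fam N F) (hx : x ∈ Icc 1 (N : ℤ)) (hk : 13 * k + 1 ≤ N)
    (hbig : ∀ B ∈ F, x ∉ B → N ≤ B.card + 1 + k) (hright : ∀ A ∈ Sd F x 1, ∀ y ∈ A, x < y) :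
    F.card ≤ bnd N := by
  have hsplit : (F.filter (fun A => x ∈ A)).card + (Av F x).card = F.card := by
    unfold Av
    exact card_filter_add_card_filter_not (s := F) _
  have hstar := h1 N F x (by omega) hF hx
  obtain ⟨hc1, hc2⟩ := h8 N F x hF hx
  have hx' := mem_Icc.1 hx
  have hc5 : (C5 F x).card ≤ (N - 1) / 4 := by omega
  unfold bnd
  rcases Nat.eq_zero_or_pos (Av F x).card with h0 | h0
  · -- no member avoids x
    have : (if {x} ∈ F then 1 else 0) ≤ 1 := by split_ifs <;> simp
    omega
  · obtain ⟨B, hB⟩ := card_pos.1 h0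
    have hBF : B ∈ F ∧ x ∉ B := by
      unfold Av at hB
      rw [mem_filter] at hB
      exact hB
    have hsing : ({x} : Finset ℤ) ∉ F := by
      intro hs
      have hne : ({x} : Finset ℤ) ≠ B := by
        rintro rfl
        exact hBF.2 (mem_singleton_self x)
      obtain ⟨y, hy⟩ := (hF.ap _ hs B hBF.1 hne).1
      rw [mem_inter, mem_singleton] at hy
      obtain ⟨rfl, hyB⟩ := hy
      exact hBF.2 hyB
    rw [if_neg hsing] at hstar
    rcases Nat.lt_or_ge (Av F x).card 2 with hlt | hge
    · omega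
    · obtain ⟨hext, hloc⟩ := h7 N F x k hF hx hk hbig hge
      have hc5k : (C5 F x).card ≤ k := by omega
      have hAvsplit : ((Av F x).filter (fun A => A ∈ Sd F x 1)).card +
          ((Av F x).filter (fun A => A ∉ Sd F x 1)).card = (Av F x).card :=
        card_filter_add_card_filter_not (s := Av F x) _
      have hSdle : ((Av F x).filter (fun A => A ∈ Sd F x 1)).card ≤ (Sd F x 1).card := by
        apply card_le_card
        intro A hA
        rw [mem_filter] at hA
        exact hA.2
      rcases (Sd F x 1).eq_empty_or_nonempty with hS | hS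
      · have hS0 : (Sd F x 1).card = 0 := by rw [hS, card_empty]
        omega
      · -- the two special intervals
        obtain ⟨A1, hA1, hA1max⟩ := exists_max_image (Sd F x 1) lo hS
        obtain ⟨A2, hA2, hA2min⟩ := exists_min_image (Sd F x 1) hi hS
        obtain ⟨hA1F, hxA1, hA1ne, hA1c⟩ := mem_Sd hA1
        obtain ⟨hA2F, hxA2, hA2ne, hA2c⟩ := mem_Sd hA2
        have hlo := lo_mem hA1ne
        have hhi := hi_mem hA2ne
        have e1 := hright A1 hA1 _ hlo
        have e2 := (mem_Icc.1 (hF.sub A2 hA2F hhi)).2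
        have emeet : ∀ A ∈ Sd F x 1, ∀ B ∈ Sd F x 1, ∃ y ∈ A, y ∈ B := by
          intro A hA B hB
          by_cases hAB : A = B
          · obtain ⟨_, _, ⟨y, hy⟩, _⟩ := mem_Sd hA
            exact ⟨y, hy, hAB ▸ hy⟩
          · obtain ⟨y, hy⟩ := (hF.ap A (mem_Sd hA).1 B (mem_Sd hB).1 hAB).1
            rw [mem_inter] at hy
            exact ⟨y, hy.1, hy.2⟩
        have hnear : Near N F x k (lo A1 - x - 1).toNat ((N : ℤ) - hi A2).toNat := by
          have ea : x + ((lo A1 - x - 1).toNat : ℤ) + 1 = lo A1 := by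
            rw [Int.toNat_of_nonneg (by omega)]; ring
          have eb : (N : ℤ) - (((N : ℤ) - hi A2).toNat : ℤ) = hi A2 := by
            rw [Int.toNat_of_nonneg (by omega)]; ring
          refine ⟨hF, hx, hk, hbig, hright, ?_, ?_, ⟨A1, hA1, ?_⟩, ⟨A2, hA2, ?_⟩⟩
          · intro A hA
            rw [ea]
            obtain ⟨_, _, hAne, hAc⟩ := mem_Sd hA
            obtain ⟨y, hy, hy'⟩ := emeet A hA A1 hA1
            exact hAc _ (lo_mem hAne) y hy _ (hA1max A hA) (lo_le hy')
          · intro A hA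
            rw [eb]
            obtain ⟨_, _, hAne, hAc⟩ := mem_Sd hA
            obtain ⟨y, hy, hy'⟩ := emeet A hA A2 hA2
            exact hAc y hy _ (hi_mem hAne) _ (le_hi hy') (hA2min A hA)
          · intro y hy
            rw [ea]
            exact lo_le hy
          · intro y hy
            rw [eb]
            exact le_hi hy
        set a := (lo A1 - x - 1).toNat
        set b := ((N : ℤ) - hi A2).toNat
        have hslot := h2 N F x (Forb N F x) hF hx (filter_subset _ _)
          (fun p hp => by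
            unfold Forb at hp
            rw [mem_filter] at hp
            exact hp.2.1)
          (h3 N F x k a b hnear)
          (fun d hd => h4 N F x k a b d hnear hd)
        have hsmall := h5 N F x k a b hnear
        have hcount := h6 N F x k a b hnear
        have hthr : (F.filter (fun A => x ∈ A)).card ≤
            (F.filter (fun A => x ∈ A ∧ 3 ≤ A.card)).card +
              (F.filter (fun A => x ∈ A ∧ A.card ≤ 2)).card := by
          refine (card_le_card ?_).trans (card_union_le _ _)
          intro A hA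
          rw [mem_filter] at hA
          rw [mem_union, mem_filter, mem_filter]
          rcases Nat.lt_or_ge A.card 3 with h | h
          · exact Or.inr ⟨hA.1, hA.2, by omega⟩
          · exact Or.inl ⟨hA.1, hA.2, h⟩
        have hch := choose_two_succ N (by omega)
        omega

end TOne

open TOne

theorem thmT1 (h1 : SStar) (h2 : SSlot) (h3 : SMargin) (h4 : SScale) (h5 : SNearSmall)
    (h6 : SNearCount) (h7 : SExtras) (h8 : SC5) (h9 : SSide) (h10 : SRefl) : ST1 := by
  refine ⟨5, ?_⟩
  intro N hN F x k hF hx hk hbig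
  rcases h9 N F x hF with hr | hl
  · exact rightCase h1 h2 h3 h4 h5 h6 h7 h8 N hN F x k hF hx hk hbig hr
  · obtain ⟨r1, r2, r3, r4⟩ := h10 N F hF
    rw [← r2]
    have hinj : Function.Injective (fun y : ℤ => (N : ℤ) + 1 - y) := by
      intro p q hpq
      simp only at hpq
      linarith
    have hx' := mem_Icc.1 hx
    refine rightCase h1 h2 h3 h4 h5 h6 h7 h8 N hN (refl N F) ((N : ℤ) + 1 - x) k r1 ?_ hk ?_ ?_
    · rw [mem_Icc]
      constructor <;> linarith [hx'.1, hx'.2]
    · intro B hB hxB
      have h11 := hbig _ (r3 B hB) (by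
        intro hmem
        rw [mem_image] at hmem
        obtain ⟨y, hy, hyx⟩ := hmem
        apply hxB
        have : (N : ℤ) + 1 - x = y := by linarith
        rw [this]; exact hy)
      rwa [card_image_of_injective _ hinj] at h11
    · intro A hA y hy
      have h12 := r4 _ A hA
      have e : (N : ℤ) + 1 - ((N : ℤ) + 1 - x) = x := by ring
      rw [e] at h12
      have := hl _ h12 ((N : ℤ) + 1 - y) (mem_image_of_mem _ hy)
      linarith

end Pool.Agent.Work.MP_1d0aa8_co
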