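import Pool.Agent.Work.MP_1d0aa8_co.Bd.B04
import Pool.Agent.Work.MP_1d0aa8_co.Bd.B01
import Pool.Agent.Work.MP_1d0aa8_co.ItBOX
import Pool.Agent.Work.MP_1d0aa8_co.Bd.B03
import Pool.Agent.Work.MP_1d0aa8_co.ItLOWER
import Pool.Agent.Work.MP_1d0aa8_co.Bd.B02
import Pool.Agent.Work.MP_1d0aa8_co.ItPHI
import Pool.Agent.Work.MP_1d0aa8_co.ItT1

/-!
# MP_1d0aa8_co: the final theorem
-/

set_option autoImplicit false

namespace Pool.Agent.Work.MP_1d0aa8_co

theorem thmHT2 : HT2 :=
  { split := thmSplit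
    large := thmLarge
    meet := thmMeet (thmBad thmDiv)
    nt := thmNT (thmBad thmDiv)
    count := thmCount
    zeta := thmZeta
    qsmall := thmQsmall
    pdc := thmPdCard
    cov := thmCover (thmBox thmCop)
    cov2 := thmCover2 (thmBox thmCop)
    delta := thmDelta thmArea
    ntc := thmNTc
    num0 := thmNum0
    num1 := thmNum1
    num2 := thmNum2
    num2b := thmNum2b
    num3 := thmNum3
    num3b := thmNum3b
    num4 := thmNum4 }

theorem thmAll : SFinal := by
  have hT2 : ST2 := thmT2 thmHT2 thmSide thmRefl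
  have hS : SCaseS := thmCaseS thmLarge (thmAPtot thmSplit thmCount thmZeta) thmExcCount
    (thmBad thmDiv) (thmTypeAB thmDiv) thmQuasi
  have hstar : SStar := thmStar thmSlot (thmScale0 thmPsi)
  have hT1 : ST1 := thmT1 hstar thmSlot (thmMargin thmMarginA thmMarginB thmNearAB)
    (thmScale thmPsi thmPhi thmNearAB) thmNearSmall thmNearCount thmExtras thmC5 thmSide thmRefl
  exact thmFinal (thmUpper hS hT1 hT2) thmLower thmTransfer

end Pool.Agent.Work.MP_1d0aa8_co
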